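import Pool.Agent.H295R2.WM4
import Pool.Agent.W190.Q306.A2

/-! Mean square of the primes in short intervals in a zero-free half plane (Plancherel). -/

set_option autoImplicit false

open MeasureTheory Filter Topology Set
open Pool.Agent.H295R2 Pool.Agent.W190.Q306

namespace Pool.Agent.E8helper68.WP

noncomputable section

/-- `ψ(⌊e^v⌋) - ⌊e^v⌋` -/
def KS (v : ℝ) : ℂ := ∑ m ∈ Finset.Icc 1 ⌊Real.exp v⌋₊, ((aL m : ℝ) : ℂ)

lemma KS_eq (v : ℝ) : KS v = ((Chebyshev.psi (⌊Real.exp v⌋₊ : ℝ) - (⌊Real.exp v⌋₊ : ℝ) : ℝ) : ℂ) := by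
  unfold KS
  rw [← sum_aL]
  push_cast
  rfl

lemma KS_nice {C σ : ℝ} (hC : 0 < C) (hσ : 0 < σ)
    (h : ∀ y : ℝ, 1 ≤ y → |Chebyshev.psi y - y| ≤ C * y ^ σ) : Nice KS C σ 0 where
  meas := by
    unfold KS
    exact (measurable_from_top (f := fun n : ℕ => ∑ m ∈ Finset.Icc 1 n, ((aL m : ℝ) : ℂ))).comp
      (Nat.measurable_floor.comp Real.measurable_exp)
  bound := by
    intro u
    rw [KS_eq, Complex.norm_real, Real.norm_eq_abs]
    rcases Nat.eq_zero_or_pos ⌊Real.exp u⌋₊ with h0 | h0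
    · rw [h0]
      simp only [Nat.cast_zero, sub_zero, Chebyshev.psi_zero, abs_zero]
      positivity
    · have h1 : (1:ℝ) ≤ (⌊Real.exp u⌋₊ : ℝ) := by exact_mod_cast h0
      refine (h _ h1).trans ?_
      have h2 : ((⌊Real.exp u⌋₊ : ℝ)) ≤ Real.exp u := Nat.floor_le (Real.exp_pos u).le
      have h3 : ((⌊Real.exp u⌋₊ : ℝ)) ^ σ ≤ Real.exp u ^ σ :=
        Real.rpow_le_rpow (by linarith) h2 hσ.le
      rw [← Real.exp_mul, mul_comm u σ] at h3
      exact mul_le_mul_of_nonneg_left h3 hC.le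
  zero := by
    intro u hu
    unfold KS
    have h1 : ⌊Real.exp u⌋₊ = 0 := by
      rw [Nat.floor_eq_zero, ← Real.exp_zero]; exact Real.exp_lt_exp.2 hu
    rw [h1]; simp

lemma Lap_KS {C σ : ℝ} (hn : Nice KS C σ 0) {s : ℂ} (hs : 1 < s.re) : s * Lap KS s = gz s := by
  have hO : (fun n : ℕ => ∑ k ∈ Finset.Icc 1 n, ‖((aL k : ℝ) : ℂ)‖) =O[atTop] fun n : ℕ => (n : ℝ) ^ (1:ℝ) := by
    refine Asymptotics.IsBigO.of_bound (Real.log 4 + 5) ?_
    filter_upwards [eventually_ge_atTop 1] with n hn1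
    rw [Real.norm_of_nonneg (Finset.sum_nonneg fun _ _ => norm_nonneg _), Real.rpow_one,
      Real.norm_of_nonneg (Nat.cast_nonneg n)]
    have h1 : ∑ k ∈ Finset.Icc 1 n, ‖((aL k : ℝ) : ℂ)‖ ≤
        ∑ k ∈ Finset.Icc 1 n, (ArithmeticFunction.vonMangoldt k + 1) := by
      refine Finset.sum_le_sum fun k hk => ?_
      rw [Finset.mem_Icc] at hk
      rw [Complex.norm_real, Real.norm_eq_abs]
      unfold aL
      rw [if_neg (by omega)]
      have h2 := ArithmeticFunction.vonMangoldt_nonneg (n := k)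
      rw [abs_le]
      constructor <;> linarith
    have h2 : Chebyshev.psi (n:ℝ) = ∑ m ∈ Finset.Icc 1 n, ArithmeticFunction.vonMangoldt m := by
      unfold Chebyshev.psi
      rw [Nat.floor_natCast]
      rfl
    have h3 : Chebyshev.psi (n:ℝ) ≤ (Real.log 4 + 4) * n := Chebyshev.psi_le_const_mul_self (by positivity)
    rw [Finset.sum_add_distrib, ← h2] at h1
    simp only [Finset.sum_const, Nat.card_Icc, add_tsub_cancel_right, nsmul_eq_mul, mul_one] at h1
    linarith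
  have h1 := LSeries_eq_mul_integral' (fun k : ℕ => ((aL k : ℝ) : ℂ)) (r := 1) (by norm_num) (s := s) hs hO
  have hs1 : s ≠ 1 := by rintro rfl; norm_num at hs
  have h2 : LSeries (fun k : ℕ => ((aL k : ℝ) : ℂ)) s = gz s := by
    rw [aL_series s hs, gz_eq hs1]
    exact riemannZeta_ne_zero_of_one_lt_re hs
  rw [← h2, h1]
  congr 1
  rw [integral_Ioi_exp]
  unfold Lap
  rw [← setIntegral_eq_integral_of_forall_compl_eq_zero (s := Ici (0:ℝ)), integral_Ici_eq_integral_Ioi]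
  · apply setIntegral_congr_fun measurableSet_Ioi
    intro u _
    simp only
    unfold KS
    have hne : ((Real.exp u : ℝ) : ℂ) ≠ 0 := by exact_mod_cast (Real.exp_pos u).ne'
    rw [Complex.cpow_def_of_ne_zero hne, ← Complex.ofReal_log (Real.exp_pos u).le, Real.log_exp]
    have e1 : ((Real.exp u : ℝ) : ℂ) = Complex.exp u := Complex.ofReal_exp u
    rw [e1]
    have e2 : Complex.exp (-(s * u)) = Complex.exp u * Complex.exp ((u : ℂ) * (-(s + 1))) := by
      rw [← Complex.exp_add]; ring_nf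
    rw [e2]; ring
  · intro u hu
    have : u < 0 := by simpa using hu
    rw [hn.zero u this, zero_mul]

lemma Lap_KS' {C σ θ : ℝ} (hn : Nice KS C σ 0) (hσ1 : σ < 1) (hθ : θ ≤ σ)
    (hz : ∀ s : ℂ, θ < s.re → Zs s ≠ 0) {s : ℂ} (hs : σ < s.re) : s * Lap KS s = gz s := by
  have h1 : AnalyticOnNhd ℂ (fun s => s * Lap KS s) {z : ℂ | σ < z.re} := by
    refine DifferentiableOn.analyticOnNhd (fun z hz => ?_) (halfplane_open σ)
    exact (differentiableAt_id.mul (hn.Lap_differentiableAt hz)).differentiableWithinAt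
  have h2 : AnalyticOnNhd ℂ gz {z : ℂ | σ < z.re} := by
    refine DifferentiableOn.analyticOnNhd (fun z hz' => ?_) (halfplane_open σ)
    exact (gz_differentiableAt (hz z (lt_of_le_of_lt hθ hz'))).differentiableWithinAt
  have h3 : (fun s => s * Lap KS s) =ᶠ[𝓝 (2 : ℂ)] gz := by
    have : {s : ℂ | 1 < s.re} ∈ 𝓝 (2 : ℂ) := (halfplane_open 1).mem_nhds (by simp)
    filter_upwards [this] with z hz'
    exact Lap_KS hn hz'
  have h4 := h1.eqOn_of_preconnected_of_eventuallyEq h2 (halfplane_preconnected σ) (z₀ := 2)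
    (by simp; linarith) h3
  exact h4 hs

lemma shift_nice {k : ℝ → ℂ} {B a h : ℝ} (hk : Nice k B a 0) (h0 : 0 < h) :
    Nice (fun u => k (u + h) - k u) (B * (Real.exp (a * h) + 1)) a (0 - h) where
  meas := (hk.meas.comp (measurable_id.add_const h)).sub hk.meas
  bound := by
    intro u
    have h1 := hk.bound (u + h)
    have h2 := hk.bound u
    refine (norm_sub_le _ _).trans ((add_le_add h1 h2).trans (le_of_eq ?_))
    rw [mul_add, Real.exp_add]
    ring
  zero := by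
    intro u hu
    rw [hk.zero (u + h) (by linarith), hk.zero u (by linarith), sub_zero]

lemma shift_int {k : ℝ → ℂ} {B a : ℝ} (hk : Nice k B a 0) {s : ℂ} (hs : a < s.re) (h : ℝ) :
    Integrable (fun u : ℝ => k (u + h) * Complex.exp (-(s * u))) := by
  have h1 := (hk.integrable hs).comp_add_right h
  have h2 := h1.const_mul (Complex.exp (s * h))
  refine h2.congr (Eventually.of_forall fun u => ?_)
  simp only
  have : Complex.exp (-(s * ((u + h : ℝ) : ℂ))) = Complex.exp (-(s * h)) * Complex.exp (-(s * u)) := by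
    rw [← Complex.exp_add]; push_cast; ring_nf
  rw [this]
  have h2 : Complex.exp (s * h) * Complex.exp (-(s * h)) = 1 := by
    rw [← Complex.exp_add]; simp
  linear_combination (k (u + h) * Complex.exp (-(s * u))) * h2

lemma shift_Lap {k : ℝ → ℂ} {B a h : ℝ} (hk : Nice k B a 0) {s : ℂ} (hs : a < s.re) :
    Lap (fun u => k (u + h) - k u) s = (Complex.exp (s * h) - 1) * Lap k s := by
  have h1 := hk.Lap_shift s h
  have h2 : Lap (fun u => k (u + h) - k u) s =
      (∫ u : ℝ, k (u + h) * Complex.exp (-(s * u))) - ∫ u : ℝ, k u * Complex.exp (-(s * u)) := by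
    unfold Lap
    rw [← integral_sub (shift_int hk hs h) (hk.integrable hs)]
    refine integral_congr_ae (Eventually.of_forall fun u => ?_)
    simp only
    ring
  rw [h2, h1]
  unfold Lap
  ring

/-- the multiplier of a short interval -/
lemma mult_bound {s : ℂ} {h e : ℝ} (hs : 1 / 2 ≤ s.re) (hs1 : s.re ≤ 1) (h0 : 0 < h) (h1 : h ≤ 1)
    (he : 0 ≤ e) (he1 : e ≤ 1) :
    ‖(Complex.exp (s * h) - 1) / s‖ ^ 2 ≤ 16 * h ^ (1 - e) * (9 * (1 + |s.im|) ^ (-(1 + e))) := by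
  have hsn : 1 / 2 ≤ ‖s‖ := hs.trans ((le_abs_self _).trans (Complex.abs_re_le_norm s))
  have hsi : |s.im| ≤ ‖s‖ := Complex.abs_im_le_norm s
  have hs0 : 0 < ‖s‖ := by linarith
  have hA : ‖(Complex.exp (s * h) - 1) / s‖ ≤ 4 / ‖s‖ := by
    rw [norm_div]
    refine div_le_div_of_nonneg_right ?_ hs0.le
    have h2 : ‖Complex.exp (s * h)‖ ≤ 3 := by
      rw [Complex.norm_exp]
      have h3 : (s * h).re ≤ 1 := by
        simp only [Complex.mul_re, Complex.ofReal_re, Complex.ofReal_im, mul_zero, sub_zero]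
        nlinarith
      refine (Real.exp_le_exp.2 h3).trans ?_
      linarith [Real.exp_one_lt_d9]
    calc ‖Complex.exp (s * h) - 1‖ ≤ ‖Complex.exp (s * h)‖ + ‖(1:ℂ)‖ := norm_sub_le _ _
      _ ≤ 3 + 1 := by rw [norm_one]; linarith
      _ = 4 := by norm_num
  have hB : ‖(Complex.exp (s * h) - 1) / s‖ ≤ 4 * h := by
    rcases le_or_gt (‖s‖ * h) 1 with h2 | h2
    · rw [norm_div, div_le_iff₀ hs0]
      have h3 : ‖s * (h:ℂ)‖ = ‖s‖ * h := by
        rw [norm_mul, Complex.norm_real, Real.norm_of_nonneg h0.le]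
      have h4 := Complex.norm_exp_sub_one_le (x := s * h) (by rw [h3]; exact h2)
      rw [h3] at h4
      nlinarith
    · refine hA.trans ?_
      rw [div_le_iff₀ hs0]
      nlinarith
  -- interpolate
  set N := ‖(Complex.exp (s * h) - 1) / s‖ with hN
  have hN0 : 0 ≤ N := norm_nonneg _
  have h5 : N ^ 2 = N ^ (1 - e) * N ^ (1 + e) := by
    rcases eq_or_lt_of_le hN0 with h6 | h6
    · rw [← h6, Real.zero_rpow (x := 1 + e) (by linarith)]
      simp
    · rw [← Real.rpow_add h6]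
      have : (1 - e) + (1 + e) = ((2:ℕ) : ℝ) := by push_cast; ring
      rw [this, Real.rpow_natCast]
  have h6 : N ^ (1 - e) ≤ (4 * h) ^ (1 - e) := Real.rpow_le_rpow hN0 hB (by linarith)
  have h7 : N ^ (1 + e) ≤ (4 / ‖s‖) ^ (1 + e) := Real.rpow_le_rpow hN0 hA (by linarith)
  have h8 : (4 / ‖s‖) ^ (1 + e) = 4 ^ (1 + e) * ‖s‖ ^ (-(1 + e)) := by
    rw [Real.div_rpow (by norm_num) hs0.le, Real.rpow_neg hs0.le, div_eq_mul_inv]
  have h9 : ‖s‖ ^ (-(1 + e)) ≤ 9 * (1 + |s.im|) ^ (-(1 + e)) := by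
    have h10 : (1 + |s.im|) / 3 ≤ ‖s‖ := by linarith
    have h11 : ‖s‖ ^ (-(1 + e)) ≤ ((1 + |s.im|) / 3) ^ (-(1 + e)) :=
      Real.rpow_le_rpow_of_nonpos (by positivity) h10 (by linarith)
    refine h11.trans ?_
    rw [Real.div_rpow (by positivity) (by norm_num), div_eq_mul_inv, mul_comm,
      Real.rpow_neg (by norm_num : (0:ℝ) ≤ 3), inv_inv]
    refine mul_le_mul_of_nonneg_right ?_ (by positivity)
    calc (3:ℝ) ^ (1 + e) ≤ 3 ^ (2:ℝ) := Real.rpow_le_rpow_of_exponent_le (by norm_num) (by linarith)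
      _ = 9 := by norm_num
  calc N ^ 2 = N ^ (1 - e) * N ^ (1 + e) := h5
    _ ≤ (4 * h) ^ (1 - e) * (4 ^ (1 + e) * (9 * (1 + |s.im|) ^ (-(1 + e)))) := by
      refine mul_le_mul h6 (h7.trans ?_) (Real.rpow_nonneg hN0 _) (by positivity)
      rw [h8]
      exact mul_le_mul_of_nonneg_left h9 (by positivity)
    _ = (4 ^ (1 - e) * 4 ^ (1 + e)) * h ^ (1 - e) * (9 * (1 + |s.im|) ^ (-(1 + e))) := by
      rw [Real.mul_rpow (by norm_num) h0.le]; ring
    _ = _ := by
      rw [← Real.rpow_add (by norm_num)]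
      have : (1 - e) + (1 + e) = ((2:ℕ) : ℝ) := by push_cast; ring
      rw [this, Real.rpow_natCast]
      norm_num

/-- mean square of `ψ(x e^h) - ψ(x) - (e^h - 1) x` (up to `O(1)`) in a zero-free half plane -/
theorem short_ms {θ c e : ℝ} (hθ : 1 / 2 ≤ θ) (hz : ∀ s : ℂ, θ < s.re → Zs s ≠ 0) (hc : θ < c) (hc1 : c < 1)
    (he : 0 < e) (he1 : e < 1) : ∃ C : ℝ, 0 < C ∧ ∀ h : ℝ, 0 < h → h ≤ 1 →
      Integrable (fun u : ℝ => ‖KS (u + h) - KS u‖ ^ 2 * Real.exp (-(2 * c * u))) ∧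
      ∫ u : ℝ, ‖KS (u + h) - KS u‖ ^ 2 * Real.exp (-(2 * c * u)) ≤ C * h ^ (1 - e) := by
  obtain ⟨σ, hσ⟩ : ∃ σ : ℝ, σ = (θ + c) / 2 := ⟨_, rfl⟩
  have hσ1 : θ < σ := by rw [hσ]; linarith
  have hσ2 : σ < c := by rw [hσ]; linarith
  obtain ⟨C1, hC1, hpsi⟩ := psi_bound (by linarith) hz hσ1 (by linarith)
  have hn := KS_nice hC1 (by linarith) hpsi
  obtain ⟨C2, hC2, hgz⟩ := gz_bound (σ := c) (by linarith) hz hc hc1.le (ε := e / 4) (by positivity)
  obtain ⟨I, hI⟩ : ∃ I : ℝ, I = ∫ ξ : ℝ, (1 + |2 * Real.pi * ξ|) ^ (-(1 + e / 2)) := ⟨_, rfl⟩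
  have hI0 : 0 ≤ I := by rw [hI]; exact integral_nonneg fun ξ => by positivity
  refine ⟨144 * C2 ^ 2 * I + 1, by positivity, fun h h0 h1 => ?_⟩
  have hk := shift_nice hn h0
  obtain ⟨p1, p2⟩ := plancherel_Lap hk (c := c) hσ2
  have hkm : Measurable (fun u : ℝ => ‖KS (u + h) - KS u‖ ^ 2 * Real.exp (-(2 * c * u))) :=
    ((hk.meas.norm).pow_const 2).mul (by fun_prop)
  have hint : Integrable (fun u : ℝ => ‖KS (u + h) - KS u‖ ^ 2 * Real.exp (-(2 * c * u))) := by
    obtain ⟨B, hB⟩ : ∃ B : ℝ, B = C1 * (Real.exp (σ * h) + 1) := ⟨_, rfl⟩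
    have hb : ∀ u, ‖KS (u + h) - KS u‖ ≤ B * Real.exp (σ * u) := fun u => by
      rw [hB]; exact hk.bound u
    refine (integrable_ind_exp (by linarith : 2 * (σ - c) < 0) (B ^ 2) (0 - h)).mono'
      hkm.aestronglyMeasurable (Eventually.of_forall fun u => ?_)
    rw [Real.norm_of_nonneg (by positivity)]
    by_cases hu : u ∈ Ici (0 - h)
    · rw [indicator_of_mem hu]
      calc ‖KS (u + h) - KS u‖ ^ 2 * Real.exp (-(2 * c * u))
          ≤ (B * Real.exp (σ * u)) ^ 2 * Real.exp (-(2 * c * u)) := by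
            refine mul_le_mul_of_nonneg_right ?_ (Real.exp_pos _).le
            exact pow_le_pow_left₀ (norm_nonneg _) (hb u) 2
        _ = B ^ 2 * Real.exp (2 * (σ - c) * u) := by
          rw [mul_pow, ← Real.exp_nat_mul, mul_assoc, ← Real.exp_add]
          congr 2
          push_cast
          ring
    · rw [indicator_of_notMem hu]
      have h2 : u < 0 - h := by simpa using hu
      have h3 : KS (u + h) - KS u = 0 := hk.zero u h2
      rw [h3]
      simp
  refine ⟨hint, ?_⟩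
  rw [← p2]
  have hpt : ∀ ξ : ℝ, ‖Lap (fun u => KS (u + h) - KS u) (c + 2 * Real.pi * ξ * Complex.I)‖ ^ 2 ≤
      (144 * C2 ^ 2 * h ^ (1 - e)) * (1 + |2 * Real.pi * ξ|) ^ (-(1 + e / 2)) := by
    intro ξ
    obtain ⟨s, hs⟩ : ∃ s : ℂ, s = c + 2 * Real.pi * ξ * Complex.I := ⟨_, rfl⟩
    have hre : s.re = c := by rw [hs, line_re]
    have him : s.im = 2 * Real.pi * ξ := by rw [hs, line_im]
    rw [← hs, shift_Lap hn (by rw [hre]; exact hσ2)]
    have hs0 : s ≠ 0 := by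
      intro h2
      rw [h2] at hre
      simp at hre
      linarith
    have e1 : (Complex.exp (s * h) - 1) * Lap KS s = ((Complex.exp (s * h) - 1) / s) * gz s := by
      rw [← Lap_KS' hn (by linarith) hσ1.le hz (by rw [hre]; exact hσ2)]
      field_simp
    rw [e1, norm_mul, mul_pow, ← him]
    have h3 := mult_bound (s := s) (h := h) (e := e) (by rw [hre]; linarith) (by rw [hre]; linarith) h0 h1
      he.le he1.le
    have h4 := hgz s (by rw [hre]) (by rw [hre]; linarith)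
    have h5 : ‖gz s‖ ^ 2 ≤ (C2 * (1 + |s.im|) ^ (e / 4)) ^ 2 := pow_le_pow_left₀ (norm_nonneg _) h4 2
    have h6 : ((1 + |s.im|) ^ (e / 4)) ^ 2 = (1 + |s.im|) ^ (e / 2) := by
      rw [← Real.rpow_natCast, ← Real.rpow_mul (by positivity)]
      congr 1
      push_cast
      ring
    rw [mul_pow, h6] at h5
    calc ‖(Complex.exp (s * h) - 1) / s‖ ^ 2 * ‖gz s‖ ^ 2
        ≤ (16 * h ^ (1 - e) * (9 * (1 + |s.im|) ^ (-(1 + e)))) * (C2 ^ 2 * (1 + |s.im|) ^ (e / 2)) :=
          mul_le_mul h3 h5 (by positivity) (by positivity)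
      _ = (144 * C2 ^ 2 * h ^ (1 - e)) * ((1 + |s.im|) ^ (-(1 + e)) * (1 + |s.im|) ^ (e / 2)) := by ring
      _ = _ := by
        rw [← Real.rpow_add (by positivity)]
        congr 2
        ring
  calc ∫ ξ : ℝ, ‖Lap (fun u => KS (u + h) - KS u) (c + 2 * Real.pi * ξ * Complex.I)‖ ^ 2
      ≤ ∫ ξ : ℝ, (144 * C2 ^ 2 * h ^ (1 - e)) * (1 + |2 * Real.pi * ξ|) ^ (-(1 + e / 2)) :=
        integral_mono p1 ((integrable_decay' (by linarith)).const_mul _) hpt
    _ = 144 * C2 ^ 2 * I * h ^ (1 - e) := by rw [integral_const_mul, ← hI]; ring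
    _ ≤ (144 * C2 ^ 2 * I + 1) * h ^ (1 - e) := by
      refine mul_le_mul_of_nonneg_right (by linarith) (by positivity)

end

end Pool.Agent.E8helper68.WP
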