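import Pool.Agent.E8helper68.WP.WP9

/-! The final statement. -/

set_option autoImplicit false

open MeasureTheory Filter Topology Set
open Pool.Agent.H295R2 (Mx)
open Pool.Agent.TH223.AP (WM WM_iff_ZC IsLaw law_facts SS)
open Pool.Agent.W120.WM (ZC NT)

namespace Pool.Agent.E8helper68.WP

noncomputable section

lemma ZC_of_law {μ : ProbabilityMeasure ℝ} (hμ : IsLaw μ) : ZC :=
  WM_iff_ZC.1 (Pool.Agent.TH223.AP.main.2.1.2 ⟨μ, hμ⟩)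

theorem main :
    (∀ μ : ProbabilityMeasure ℝ, IsLaw μ ↔ IsPLaw μ) ∧
    (WM ↔ ∃ μ : ProbabilityMeasure ℝ, IsPLaw μ) ∧
    (WM ↔ ∃ C : ℝ, ∀ x : ℝ, 2 ≤ x → PP x ≤ C * Real.log x) ∧
    (WM ↔ ∃ C : ℝ, ∃ᶠ x : ℝ in atTop, PP x ≤ C * Real.log x) ∧
    (WM → Tendsto (fun x : ℝ => PP x / Real.log x) atTop
        (𝓝 (∑' ρ : NT, 1 / ‖(ρ : ℂ) * deriv riemannZeta ρ‖ ^ 2)) ∧
      ∃ η c : ℝ, 0 < η ∧ 0 < c ∧ ∀ᶠ x : ℝ in atTop,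
        c * Real.log x ≤ ∑ p ∈ (Finset.Icc 1 ⌊x⌋₊).filter (fun p : ℕ => p.Prime ∧ η * √(p:ℝ) < Mx p),
          Real.log p / p ∧
        c * Real.log x ≤ ∑ p ∈ (Finset.Icc 1 ⌊x⌋₊).filter (fun p : ℕ => p.Prime ∧ Mx p < -(η * √(p:ℝ))),
          Real.log p / p) ∧
    (¬ WM → Tendsto (fun x : ℝ => PP x / Real.log x) atTop atTop) := by
  have hf : ∀ C : ℝ, (∀ x : ℝ, 2 ≤ x → PP x ≤ C * Real.log x) → ∃ᶠ x : ℝ in atTop, PP x ≤ C * Real.log x := by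
    intro C hC
    refine Eventually.frequently ?_
    filter_upwards [eventually_ge_atTop (2:ℝ)] with x hx
    exact hC x hx
  refine ⟨fun μ => ⟨fun h => law_PLaw (ZC_of_law h) h, fun h => PLaw_law (ZC_of_PLaw h) h⟩, ⟨fun h => ?_, ?_⟩,
    ⟨fun h => le_of_lim (lim_PP (WM_iff_ZC.1 h)), ?_⟩, ⟨fun h => ?_, ?_⟩, fun h =>
    ⟨lim_PP (WM_iff_ZC.1 h), dens_primes (WM_iff_ZC.1 h)⟩, fun h => atTop_of_not (fun hZ => h (WM_iff_ZC.2 hZ))⟩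
  · obtain ⟨μ, h1, -, -⟩ := law_facts (WM_iff_ZC.1 h)
    exact ⟨μ, law_PLaw (WM_iff_ZC.1 h) h1⟩
  · rintro ⟨μ, hμ⟩
    exact WM_iff_ZC.2 (ZC_of_PLaw hμ)
  · rintro ⟨C, hC⟩
    exact WM_iff_ZC.2 (freq_ZC (hf C hC))
  · obtain ⟨C, hC⟩ := le_of_lim (lim_PP (WM_iff_ZC.1 h))
    exact ⟨C, hf C hC⟩
  · rintro ⟨C, hC⟩
    exact WM_iff_ZC.2 (freq_ZC hC)

end

end Pool.Agent.E8helper68.WP
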