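import Pool.Agent.H295R2.WM8

/-! Comparison of the mean square of the Mertens function with its mean square over the primes. -/

set_option autoImplicit false

open MeasureTheory Filter Topology Set
open Pool.Agent.H295R2 (Mx JW mu abs_mu_le JW_integrable)

namespace Pool.Agent.E8helper68.WP

noncomputable section

/-- `∑_{e^v < p ≤ e^(v+δ)} log p` -/
def TT (v δ : ℝ) : ℝ :=
  ∑ p ∈ (Finset.Ioc ⌊Real.exp v⌋₊ ⌊Real.exp (v + δ)⌋₊).filter Nat.Prime, Real.log (p : ℝ)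

/-- `∑_{p ≤ x} log p (M(p)/p)²` -/
def PP (x : ℝ) : ℝ :=
  ∑ p ∈ (Finset.Icc 1 ⌊x⌋₊).filter Nat.Prime, Real.log (p : ℝ) * (Mx p / p) ^ 2

lemma PP_nonneg (x : ℝ) : 0 ≤ PP x :=
  Finset.sum_nonneg fun p hp => by
    have : 0 ≤ Real.log (p : ℝ) := Real.log_natCast_nonneg p
    positivity

lemma PP_mono {x y : ℝ} (h : x ≤ y) : PP x ≤ PP y := by
  unfold PP
  refine Finset.sum_le_sum_of_subset_of_nonneg ?_ (fun p _ _ => ?_)
  · exact Finset.filter_subset_filter _ (Finset.Icc_subset_Icc_right (Nat.floor_le_floor h))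
  · have : 0 ≤ Real.log (p : ℝ) := Real.log_natCast_nonneg p
    positivity

lemma Mx_nat_sub {m n : ℕ} (h : m ≤ n) : |Mx n - Mx m| ≤ (n : ℝ) - m := by
  unfold Mx
  rw [Nat.floor_natCast, Nat.floor_natCast]
  have e : Finset.Icc 1 n = Finset.Icc 1 m ∪ Finset.Ioc m n := by
    ext k
    simp only [Finset.mem_Icc, Finset.mem_union, Finset.mem_Ioc]
    omega
  have hd : Disjoint (Finset.Icc 1 m) (Finset.Ioc m n) := by
    rw [Finset.disjoint_left]
    intro k h1 h2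
    rw [Finset.mem_Icc] at h1
    rw [Finset.mem_Ioc] at h2
    omega
  rw [e, Finset.sum_union hd, add_sub_cancel_left]
  calc |∑ k ∈ Finset.Ioc m n, mu k| ≤ ∑ k ∈ Finset.Ioc m n, |mu k| := Finset.abs_sum_le_sum_abs _ _
    _ ≤ ∑ k ∈ Finset.Ioc m n, (1:ℝ) := Finset.sum_le_sum fun k _ => abs_mu_le k
    _ = (n : ℝ) - m := by
      rw [Finset.sum_const, Nat.card_Ioc, nsmul_eq_mul, mul_one, Nat.cast_sub h]

lemma Mx_floor (x : ℝ) : Mx x = Mx (⌊x⌋₊ : ℝ) := by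
  unfold Mx
  rw [Nat.floor_natCast]

lemma exp_sub_le {δ : ℝ} (h0 : 0 ≤ δ) (h1 : δ ≤ 1) : Real.exp δ - 1 ≤ 2 * δ := by
  have h2 := Real.abs_exp_sub_one_le (x := δ) (by rw [abs_of_nonneg h0]; exact h1)
  rw [abs_of_nonneg h0] at h2
  exact (le_abs_self _).trans h2

/-- the primes of the window -/
lemma mem_window {v δ : ℝ} {p : ℕ} (hp : p ∈ (Finset.Ioc ⌊Real.exp v⌋₊ ⌊Real.exp (v + δ)⌋₊).filter Nat.Prime) :
    p.Prime ∧ Real.exp v < p ∧ (p : ℝ) ≤ Real.exp (v + δ) := by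
  rw [Finset.mem_filter, Finset.mem_Ioc] at hp
  refine ⟨hp.2, (Nat.floor_lt (Real.exp_pos v).le).1 hp.1.1, (Nat.le_floor_iff (Real.exp_pos _).le).1 hp.1.2⟩

/-- one point -/
lemma point {v δ : ℝ} {p : ℕ} (h0 : 0 < δ) (h1 : δ ≤ 1)
    (hp : p ∈ (Finset.Ioc ⌊Real.exp v⌋₊ ⌊Real.exp (v + δ)⌋₊).filter Nat.Prime) :
    Mx (Real.exp v) ^ 2 * Real.exp (-v) ≤
      18 * Real.exp v * (Mx p / p) ^ 2 + (16 * δ ^ 2 * Real.exp v + 4 * Real.exp (-v)) := by
  obtain ⟨hpp, h2, h3⟩ := mem_window hp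
  have hev := Real.exp_pos v
  have hp0 : (0:ℝ) < p := by exact_mod_cast hpp.pos
  have hfl : ⌊Real.exp v⌋₊ ≤ p := by
    rw [Finset.mem_filter, Finset.mem_Ioc] at hp
    omega
  have h4 : |Mx p - Mx (Real.exp v)| ≤ 2 * δ * Real.exp v + 1 := by
    rw [Mx_floor (Real.exp v)]
    refine (Mx_nat_sub hfl).trans ?_
    have h5 := Nat.lt_floor_add_one (Real.exp v)
    have h6 : Real.exp (v + δ) - Real.exp v ≤ 2 * δ * Real.exp v := by
      rw [Real.exp_add]
      have := exp_sub_le h0.le h1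
      nlinarith
    linarith
  have h5 : Mx (Real.exp v) ^ 2 ≤ 2 * Mx p ^ 2 + 2 * (2 * δ * Real.exp v + 1) ^ 2 := by
    have h6 : (Mx p - Mx (Real.exp v)) ^ 2 ≤ (2 * δ * Real.exp v + 1) ^ 2 := by
      rw [← sq_abs]
      exact pow_le_pow_left₀ (abs_nonneg _) h4 2
    nlinarith [sq_nonneg (2 * Mx p - Mx (Real.exp v)), sq_nonneg (Mx p - Mx (Real.exp v)), sq_nonneg (Mx (Real.exp v) - 2 * Mx p)]
  have hee : Real.exp v * Real.exp (-v) = 1 := by rw [← Real.exp_add]; simp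
  have hem : 0 < Real.exp (-v) := Real.exp_pos _
  -- `p ≤ 3 e^v`
  have h7 : (p : ℝ) ≤ 3 * Real.exp v := by
    refine h3.trans ?_
    rw [Real.exp_add]
    have h8 : Real.exp δ ≤ 3 := (Real.exp_le_exp.2 h1).trans (by linarith [Real.exp_one_lt_d9])
    nlinarith
  have h8 : Mx p ^ 2 * Real.exp (-v) ≤ 9 * Real.exp v * (Mx p / p) ^ 2 := by
    rw [div_pow, ← mul_div_assoc, le_div_iff₀ (by positivity)]
    have h9 : (p:ℝ) ^ 2 ≤ 9 * Real.exp v ^ 2 := by nlinarith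
    have h10 : Real.exp (-v) * (p:ℝ) ^ 2 ≤ 9 * Real.exp v := by
      calc Real.exp (-v) * (p:ℝ) ^ 2 ≤ Real.exp (-v) * (9 * Real.exp v ^ 2) :=
            mul_le_mul_of_nonneg_left h9 hem.le
        _ = 9 * Real.exp v * (Real.exp v * Real.exp (-v)) := by ring
        _ = _ := by rw [hee, mul_one]
    nlinarith [sq_nonneg (Mx p)]
  have h9 : (2 * δ * Real.exp v + 1) ^ 2 ≤ 8 * δ ^ 2 * Real.exp v ^ 2 + 2 := by
    nlinarith [sq_nonneg (2 * δ * Real.exp v - 1)]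
  have h10 : (2 * δ * Real.exp v + 1) ^ 2 * Real.exp (-v) ≤ 8 * δ ^ 2 * Real.exp v + 2 * Real.exp (-v) := by
    calc (2 * δ * Real.exp v + 1) ^ 2 * Real.exp (-v)
        ≤ (8 * δ ^ 2 * Real.exp v ^ 2 + 2) * Real.exp (-v) := mul_le_mul_of_nonneg_right h9 hem.le
      _ = 8 * δ ^ 2 * Real.exp v * (Real.exp v * Real.exp (-v)) + 2 * Real.exp (-v) := by ring
      _ = _ := by rw [hee, mul_one]
  have h11 := mul_le_mul_of_nonneg_right h5 hem.le
  nlinarith

/-- the window sum -/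
def WS (v δ : ℝ) : ℝ :=
  ∑ p ∈ (Finset.Ioc ⌊Real.exp v⌋₊ ⌊Real.exp (v + δ)⌋₊).filter Nat.Prime, Real.log (p : ℝ) * (Mx p / p) ^ 2

lemma good_point {v δ η : ℝ} (h0 : 0 < δ) (h1 : δ ≤ 1) (hη : 0 < η) (hg : η * δ * Real.exp v ≤ TT v δ) :
    Mx (Real.exp v) ^ 2 * Real.exp (-v) ≤
      18 / (η * δ) * WS v δ + (16 * δ ^ 2 * Real.exp v + 4 * Real.exp (-v)) := by
  have hev := Real.exp_pos v
  obtain ⟨J, hJ⟩ : ∃ J : ℝ, J = Mx (Real.exp v) ^ 2 * Real.exp (-v) := ⟨_, rfl⟩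
  obtain ⟨E, hE⟩ : ∃ E : ℝ, E = 16 * δ ^ 2 * Real.exp v + 4 * Real.exp (-v) := ⟨_, rfl⟩
  rw [← hJ, ← hE]
  have hT : 0 < η * δ * Real.exp v := by positivity
  have h2 : TT v δ * (J - E) ≤ 18 * Real.exp v * WS v δ := by
    unfold TT WS
    rw [Finset.sum_mul, Finset.mul_sum]
    refine Finset.sum_le_sum fun p hp => ?_
    have h3 := point h0 h1 hp
    rw [← hJ, ← hE] at h3
    have h4 : 0 ≤ Real.log (p : ℝ) := Real.log_natCast_nonneg p
    have h5 := mul_le_mul_of_nonneg_left (sub_le_iff_le_add.2 h3) h4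
    linarith
  have hWS : 0 ≤ WS v δ := Finset.sum_nonneg fun p hp => by
    have : 0 ≤ Real.log (p : ℝ) := Real.log_natCast_nonneg p
    positivity
  rcases le_or_gt J E with h3 | h3
  · have : 0 ≤ 18 / (η * δ) * WS v δ := by positivity
    linarith
  · have h4 : η * δ * Real.exp v * (J - E) ≤ 18 * Real.exp v * WS v δ :=
      (mul_le_mul_of_nonneg_right hg (by linarith)).trans h2
    have h5 : η * δ * (J - E) ≤ 18 * WS v δ := by
      have h6 : Real.exp v * (η * δ * (J - E)) ≤ Real.exp v * (18 * WS v δ) := by linarith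
      exact le_of_mul_le_mul_left h6 hev
    have h6 : J - E ≤ 18 / (η * δ) * WS v δ := by
      rw [div_mul_eq_mul_div, le_div_iff₀ (by positivity)]
      linarith
    linarith

/-- the majorant of the window sum -/
def FF (N : ℕ) (δ v : ℝ) : ℝ := ∑ p ∈ (Finset.Icc 1 N).filter Nat.Prime,
  (Real.log (p : ℝ) * (Mx p / p) ^ 2) * (Set.Ico (Real.log (p : ℝ) - δ) (Real.log (p : ℝ))).indicator 1 v

lemma WS_le {B v δ : ℝ} (hv : v ≤ B) : WS v δ ≤ FF ⌊Real.exp (B + δ)⌋₊ δ v := by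
  unfold WS FF
  have h1 : ∀ p ∈ (Finset.Ioc ⌊Real.exp v⌋₊ ⌊Real.exp (v + δ)⌋₊).filter Nat.Prime,
      Real.log (p : ℝ) * (Mx p / p) ^ 2 = (Real.log (p : ℝ) * (Mx p / p) ^ 2) *
        (Set.Ico (Real.log (p : ℝ) - δ) (Real.log (p : ℝ))).indicator 1 v := by
    intro p hp
    obtain ⟨hpp, h2, h3⟩ := mem_window hp
    have hp0 : (0:ℝ) < p := by exact_mod_cast hpp.pos
    rw [Set.indicator_of_mem]
    · simp
    · constructor
      · have := (Real.log_le_log hp0 h3)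
        rw [Real.log_exp] at this
        linarith
      · have := Real.log_lt_log (Real.exp_pos v) h2
        rwa [Real.log_exp] at this
  rw [Finset.sum_congr rfl h1]
  refine Finset.sum_le_sum_of_subset_of_nonneg ?_ (fun p _ _ => ?_)
  · intro p hp
    rw [Finset.mem_filter, Finset.mem_Ioc] at hp
    rw [Finset.mem_filter, Finset.mem_Icc]
    refine ⟨⟨by omega, hp.1.2.trans (Nat.floor_le_floor (Real.exp_le_exp.2 (by linarith)))⟩, hp.2⟩
  · have h2 : 0 ≤ Real.log (p : ℝ) := Real.log_natCast_nonneg p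
    have h3 : (0:ℝ) ≤ (Set.Ico (Real.log (p : ℝ) - δ) (Real.log (p : ℝ))).indicator 1 v :=
      Set.indicator_nonneg (fun _ _ => zero_le_one) _
    positivity

lemma FF_int (N : ℕ) (δ : ℝ) (h : 0 ≤ δ) : Integrable (FF N δ) ∧ ∫ v, FF N δ v = δ *
    ∑ p ∈ (Finset.Icc 1 N).filter Nat.Prime, Real.log (p : ℝ) * (Mx p / p) ^ 2 := by
  have h1 : ∀ p : ℕ, Integrable ((Set.Ico (Real.log (p : ℝ) - δ) (Real.log (p : ℝ))).indicator (1 : ℝ → ℝ)) := by
    intro p
    rw [integrable_indicator_iff measurableSet_Ico]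
    exact integrableOn_const (by simp)
  have h2 : ∀ p : ℕ, ∫ v, (Set.Ico (Real.log (p : ℝ) - δ) (Real.log (p : ℝ))).indicator (1 : ℝ → ℝ) v = δ := by
    intro p
    rw [integral_indicator_one measurableSet_Ico]
    simp [Measure.real, Real.volume_Ico, h]
  unfold FF
  refine ⟨integrable_finsetSum _ fun p _ => (h1 p).const_mul _, ?_⟩
  rw [integral_finsetSum _ fun p _ => (h1 p).const_mul _, Finset.mul_sum]
  refine Finset.sum_congr rfl fun p _ => ?_
  rw [integral_const_mul, h2]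
  ring

theorem cmp {A B δ η : ℝ} (W : ℝ → ℝ) (hA : 0 ≤ A) (hAB : A ≤ B) (h0 : 0 < δ) (h1 : δ ≤ 1) (hη : 0 < η)
    (hW : ∀ v, 0 ≤ W v)
    (hWi : IntegrableOn (fun v : ℝ => Mx (Real.exp v) ^ 2 * Real.exp (-v) * W v) (Ioc A B))
    (hg : ∀ v ∈ Ioc A B, η * δ * Real.exp v ≤ TT v δ ∨ 1 ≤ W v) :
    JW A B ≤ 18 / η * PP (Real.exp (B + δ)) + (16 * δ ^ 2 * Real.exp B + 4 * Real.exp (-A)) +
      ∫ v in Ioc A B, Mx (Real.exp v) ^ 2 * Real.exp (-v) * W v := by
  obtain ⟨hF1, hF2⟩ := FF_int ⌊Real.exp (B + δ)⌋₊ δ h0.le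
  have hE : IntegrableOn (fun v : ℝ => 16 * δ ^ 2 * Real.exp v + 4 * Real.exp (-v)) (Ioc A B) :=
    (Continuous.integrableOn_Icc (by fun_prop)).mono_set Ioc_subset_Icc_self
  have hpt : ∀ v ∈ Ioc A B, Mx (Real.exp v) ^ 2 * Real.exp (-v) ≤
      (18 / (η * δ) * FF ⌊Real.exp (B + δ)⌋₊ δ v + (16 * δ ^ 2 * Real.exp v + 4 * Real.exp (-v))) +
        Mx (Real.exp v) ^ 2 * Real.exp (-v) * W v := by
    intro v hv
    have hJ : 0 ≤ Mx (Real.exp v) ^ 2 * Real.exp (-v) := by positivity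
    have hF0 : 0 ≤ WS v δ := Finset.sum_nonneg fun p hp => by
      have : 0 ≤ Real.log (p : ℝ) := Real.log_natCast_nonneg p
      positivity
    have hF3 := WS_le (δ := δ) hv.2
    have hc : 0 < 18 / (η * δ) := by positivity
    rcases hg v hv with h2 | h2
    · have h3 := good_point h0 h1 hη h2
      have h4 := mul_le_mul_of_nonneg_left hF3 hc.le
      have h5 := mul_nonneg hJ (hW v)
      linarith
    · have h3 : Mx (Real.exp v) ^ 2 * Real.exp (-v) ≤ Mx (Real.exp v) ^ 2 * Real.exp (-v) * W v :=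
        le_mul_of_one_le_right hJ h2
      have h4 : 0 ≤ 18 / (η * δ) * FF ⌊Real.exp (B + δ)⌋₊ δ v := mul_nonneg hc.le (hF0.trans hF3)
      have h5 := Real.exp_pos v
      have h6 := Real.exp_pos (-v)
      have h7 : 0 ≤ 16 * δ ^ 2 * Real.exp v := by positivity
      linarith
  have hFi : IntegrableOn (fun v => 18 / (η * δ) * FF ⌊Real.exp (B + δ)⌋₊ δ v) (Ioc A B) :=
    (hF1.const_mul _).integrableOn
  have hadd : IntegrableOn (fun v => 18 / (η * δ) * FF ⌊Real.exp (B + δ)⌋₊ δ v +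
      (16 * δ ^ 2 * Real.exp v + 4 * Real.exp (-v))) (Ioc A B) := hFi.add hE
  have e1 : JW A B ≤ ∫ v in Ioc A B, ((18 / (η * δ) * FF ⌊Real.exp (B + δ)⌋₊ δ v +
      (16 * δ ^ 2 * Real.exp v + 4 * Real.exp (-v))) + Mx (Real.exp v) ^ 2 * Real.exp (-v) * W v) :=
    setIntegral_mono_on (JW_integrable hA) (hadd.add hWi) measurableSet_Ioc hpt
  rw [integral_add hadd hWi, integral_add hFi hE] at e1
  have e2 : ∫ v in Ioc A B, 18 / (η * δ) * FF ⌊Real.exp (B + δ)⌋₊ δ v ≤ 18 / η * PP (Real.exp (B + δ)) := by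
    rw [integral_const_mul]
    have h2 : ∫ v in Ioc A B, FF ⌊Real.exp (B + δ)⌋₊ δ v ≤ ∫ v, FF ⌊Real.exp (B + δ)⌋₊ δ v := by
      refine setIntegral_le_integral hF1 (Eventually.of_forall fun v => ?_)
      refine Finset.sum_nonneg fun p _ => ?_
      have h2 : 0 ≤ Real.log (p : ℝ) := Real.log_natCast_nonneg p
      have h3 : (0:ℝ) ≤ (Set.Ico (Real.log (p : ℝ) - δ) (Real.log (p : ℝ))).indicator 1 v :=
        Set.indicator_nonneg (fun _ _ => zero_le_one) _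
      positivity
    rw [hF2] at h2
    have h3 := mul_le_mul_of_nonneg_left h2 (by positivity : 0 ≤ 18 / (η * δ))
    refine h3.trans (le_of_eq ?_)
    unfold PP
    field_simp
  have e3 : ∫ v in Ioc A B, (16 * δ ^ 2 * Real.exp v + 4 * Real.exp (-v)) ≤
      16 * δ ^ 2 * Real.exp B + 4 * Real.exp (-A) := by
    rw [← intervalIntegral.integral_of_le hAB]
    rw [intervalIntegral.integral_add (by apply Continuous.intervalIntegrable; fun_prop)
      (by apply Continuous.intervalIntegrable; fun_prop)]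
    rw [intervalIntegral.integral_const_mul, intervalIntegral.integral_const_mul, integral_exp]
    have h2 : ∫ v in A..B, Real.exp (-v) = Real.exp (-A) - Real.exp (-B) := by
      rw [intervalIntegral.integral_comp_neg (fun x => Real.exp x), integral_exp]
    rw [h2]
    have h3 := Real.exp_pos A
    have h4 := Real.exp_pos (-B)
    have h5 : 0 ≤ 16 * δ ^ 2 := by positivity
    nlinarith
  linarith

end

end Pool.Agent.E8helper68.WP
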