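import Pool.Agent.E8helper68.WP.WP2
import Pool.Agent.H295R3.Hoheisel

/-! Consequence of Hoheisel's theorem. -/

set_option autoImplicit false

open MeasureTheory Filter Topology Set
open Pool.Agent.H295R2 (Mx JW)

namespace Pool.Agent.E8helper68.WP

noncomputable section

theorem hoh : ∃ δ0 K A0 : ℝ, 0 < δ0 ∧ δ0 < 1 ∧ 0 < K ∧ 0 ≤ A0 ∧ ∀ A B : ℝ, A0 ≤ A → A ≤ B →
    JW A B ≤ K * PP (Real.exp (B + 1)) + K * (Real.exp (B - 2 * δ0 * A) + 1) := by
  obtain ⟨δ0, η0, h1, h2, h3, X0, hX0, H⟩ := Pool.Agent.H295R3.D.hoheisel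
  refine ⟨δ0, 72 / η0 + 260, max (Real.log X0) (Real.log 4 / δ0), h1, h2, by positivity, ?_, ?_⟩
  · exact le_max_of_le_left (Real.log_natCast_nonneg X0)
  intro A B hA hAB
  have hA1 : Real.log X0 ≤ A := (le_max_left _ _).trans hA
  have hA2 : Real.log 4 / δ0 ≤ A := (le_max_right _ _).trans hA
  have hA0 : 0 ≤ A := (Real.log_natCast_nonneg X0).trans hA1
  obtain ⟨δ, hδ⟩ : ∃ δ : ℝ, δ = 4 * Real.exp (-(δ0 * A)) := ⟨_, rfl⟩
  have hδ0 : 0 < δ := by rw [hδ]; positivity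
  have hδ1 : δ ≤ 1 := by
    rw [div_le_iff₀ h1] at hA2
    have h4 : Real.exp (-(δ0 * A)) ≤ Real.exp (-(Real.log 4)) := Real.exp_le_exp.2 (by linarith)
    rw [Real.exp_neg (Real.log 4), Real.exp_log (by norm_num)] at h4
    rw [hδ]
    linarith
  have hX0' : (0:ℝ) < X0 := by exact_mod_cast (by omega : 0 < X0)
  have key := cmp (A := A) (B := B) (δ := δ) (η := η0 / 4) (fun _ => 0) hA0 hAB hδ0 hδ1 (by positivity)
    (fun _ => le_rfl) (by simp) (fun v hv => Or.inl ?_)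
  · simp only [mul_zero, integral_zero, add_zero] at key
    have h4 : PP (Real.exp (B + δ)) ≤ PP (Real.exp (B + 1)) := PP_mono (Real.exp_le_exp.2 (by linarith))
    have h5 := PP_nonneg (Real.exp (B + 1))
    have h6 : 18 / (η0 / 4) = 72 / η0 := by field_simp; norm_num
    rw [h6] at key
    have h7 : 0 < 72 / η0 := by positivity
    have h8 : 16 * δ ^ 2 * Real.exp B = 256 * Real.exp (B - 2 * δ0 * A) := by
      rw [hδ, mul_pow, ← Real.exp_nat_mul, mul_assoc, mul_assoc, ← Real.exp_add]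
      push_cast
      rw [show (2 * -(δ0 * A) + B) = B - 2 * δ0 * A by ring]
      ring
    have h9 : Real.exp (-A) ≤ 1 := by rw [Real.exp_le_one_iff]; linarith
    have h10 := Real.exp_pos (B - 2 * δ0 * A)
    rw [h8] at key
    have h11 := mul_le_mul_of_nonneg_left h4 h7.le
    have h12 : 0 ≤ 72 / η0 * (Real.exp (B - 2 * δ0 * A) + 1) := by positivity
    nlinarith
  · -- all points are good
    obtain ⟨hv1, hv2⟩ := hv
    have hev := Real.exp_pos v
    obtain ⟨E, hE⟩ : ∃ E : ℝ, E = Real.exp (v * (1 - δ0)) := ⟨_, rfl⟩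
    have hE1 : 1 ≤ E := by
      rw [hE]
      exact Real.one_le_exp (mul_nonneg (by linarith) (by linarith))
    have hδE : 2 * E ≤ δ * Real.exp v / 2 := by
      have e1 : δ * Real.exp v / 2 = 2 * Real.exp (v - δ0 * A) := by
        rw [hδ, sub_eq_add_neg, Real.exp_add]
        ring
      rw [e1, hE]
      have : v * (1 - δ0) ≤ v - δ0 * A := by nlinarith
      have := Real.exp_le_exp.2 this
      linarith
    have hXv : (X0 : ℝ) ≤ Real.exp v := by
      rw [← Real.exp_log hX0']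
      exact Real.exp_le_exp.2 (by linarith)
    have hX : X0 ≤ ⌊Real.exp v⌋₊ := Nat.le_floor hXv
    have hXf : ((⌊Real.exp v⌋₊ : ℕ) : ℝ) ≤ Real.exp v := Nat.floor_le hev.le
    have hY1 : δ * Real.exp v / 2 - 1 < (⌊δ * Real.exp v / 2⌋₊ : ℝ) := Nat.sub_one_lt_floor _
    have hY2 : (⌊δ * Real.exp v / 2⌋₊ : ℝ) ≤ δ * Real.exp v / 2 := Nat.floor_le (by positivity)
    have hpow : ((⌊Real.exp v⌋₊ : ℕ) : ℝ) ^ (1 - δ0) ≤ (⌊δ * Real.exp v / 2⌋₊ : ℝ) := by
      have h4 : ((⌊Real.exp v⌋₊ : ℕ) : ℝ) ^ (1 - δ0) ≤ Real.exp v ^ (1 - δ0) :=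
        Real.rpow_le_rpow (Nat.cast_nonneg _) hXf (by linarith)
      rw [← Real.exp_mul, ← hE] at h4
      linarith
    have hle : ⌊δ * Real.exp v / 2⌋₊ ≤ ⌊Real.exp v⌋₊ := by
      refine Nat.floor_le_floor ?_
      nlinarith
    have h4 := H ⌊Real.exp v⌋₊ ⌊δ * Real.exp v / 2⌋₊ hX hpow hle
    have hlog : 0 < Real.log (⌊Real.exp v⌋₊ : ℝ) :=
      Real.log_pos (by exact_mod_cast (by omega : 1 < ⌊Real.exp v⌋₊))
    rw [div_le_iff₀ hlog] at h4
    have hsub : ((Finset.Ioc ⌊Real.exp v⌋₊ (⌊Real.exp v⌋₊ + ⌊δ * Real.exp v / 2⌋₊)).filter Nat.Prime) ⊆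
        (Finset.Ioc ⌊Real.exp v⌋₊ ⌊Real.exp (v + δ)⌋₊).filter Nat.Prime := by
      refine Finset.filter_subset_filter _ (Finset.Ioc_subset_Ioc_right (Nat.le_floor ?_))
      push_cast
      rw [Real.exp_add]
      have := Real.add_one_le_exp δ
      nlinarith
    have h5 : η0 * (⌊δ * Real.exp v / 2⌋₊ : ℝ) ≤ TT v δ := by
      refine h4.trans ?_
      unfold TT
      refine le_trans ?_ (Finset.sum_le_sum_of_subset_of_nonneg hsub
        (fun p _ _ => Real.log_natCast_nonneg p))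
      rw [← nsmul_eq_mul]
      refine Finset.card_nsmul_le_sum _ _ _ (fun p hp => ?_)
      rw [Finset.mem_filter, Finset.mem_Ioc] at hp
      exact Real.log_le_log (by exact_mod_cast (by omega : 0 < ⌊Real.exp v⌋₊)) (by exact_mod_cast hp.1.1.le)
    refine le_trans ?_ h5
    have h6 : δ * Real.exp v / 4 ≤ (⌊δ * Real.exp v / 2⌋₊ : ℝ) := by linarith
    nlinarith

end

end Pool.Agent.E8helper68.WP
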