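import Pool.Agent.E8helper68.WP.WP1
import Pool.Agent.E8helper68.WP.WP2

/-! The comparison in a zero-free half plane. -/

set_option autoImplicit false

open MeasureTheory Filter Topology Set
open Pool.Agent.H295R2 (Mx JW Zs Mx_meas mertens_bound)

namespace Pool.Agent.E8helper68.WP

noncomputable section

/-- `ψ - θ` at `e^v` -/
def rr (v : ℝ) : ℝ := Chebyshev.psi (Real.exp v) - Chebyshev.theta (Real.exp v)

lemma rr_mono : Monotone rr := by
  intro a b hab
  unfold rr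
  rw [Chebyshev.psi_sub_theta_eq_sum_not_prime, Chebyshev.psi_sub_theta_eq_sum_not_prime]
  refine Finset.sum_le_sum_of_subset_of_nonneg ?_ (fun p _ _ => ArithmeticFunction.vonMangoldt_nonneg)
  exact Finset.filter_subset_filter _ (Finset.Ioc_subset_Ioc_right (Nat.floor_le_floor (Real.exp_le_exp.2 hab)))

lemma rr_nonneg (v : ℝ) : 0 ≤ rr v := sub_nonneg.2 (Chebyshev.theta_le_psi _)

lemma rr_le : ∃ C : ℝ, 0 < C ∧ ∀ v : ℝ, rr v ≤ C * Real.exp (v / 2) := by
  obtain ⟨C, hC⟩ := Chebyshev.psi_sub_theta_le_mul_sqrt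
  refine ⟨|C| + 1, by positivity, fun v => ?_⟩
  have h1 := hC (Real.exp v)
  have h2 : √(Real.exp v) = Real.exp (v / 2) := by
    rw [Real.sqrt_eq_iff_mul_self_eq (Real.exp_pos _).le (Real.exp_pos _).le, ← Real.exp_add]
    congr 1
    ring
  rw [h2] at h1
  unfold rr
  refine h1.trans (mul_le_mul_of_nonneg_right ?_ (Real.exp_pos _).le)
  linarith [le_abs_self C]

lemma rr_shift {A B δ : ℝ} (hAB : A ≤ B) (h0 : 0 < δ) :
    IntegrableOn (fun v => rr (v + δ) - rr v) (Ioc A B) ∧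
    ∫ v in Ioc A B, (rr (v + δ) - rr v) ≤ δ * rr (B + δ) := by
  have hi : ∀ a b : ℝ, IntervalIntegrable rr volume a b := fun a b => rr_mono.intervalIntegrable
  have hi' : ∀ a b : ℝ, IntervalIntegrable (fun v => rr (v + δ)) volume a b := fun a b =>
    Monotone.intervalIntegrable (fun x y hxy => rr_mono (by linarith))
  refine ⟨?_, ?_⟩
  · rw [← intervalIntegrable_iff_integrableOn_Ioc_of_le hAB]
    exact (hi' A B).sub (hi A B)
  · rw [← intervalIntegral.integral_of_le hAB, intervalIntegral.integral_sub (hi' A B) (hi A B),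
      intervalIntegral.integral_comp_add_right (fun v => rr v) δ]
    have e1 : (∫ v in (A + δ)..(B + δ), rr v) - ∫ v in A..B, rr v =
        (∫ v in B..(B + δ), rr v) - ∫ v in A..(A + δ), rr v := by
      have h2 := intervalIntegral.integral_add_adjacent_intervals (hi A (A + δ)) (hi (A + δ) (B + δ))
      have h3 := intervalIntegral.integral_add_adjacent_intervals (hi A B) (hi B (B + δ))
      linarith
    rw [e1]
    have h4 : 0 ≤ ∫ v in A..(A + δ), rr v :=
      intervalIntegral.integral_nonneg (by linarith) fun v _ => rr_nonneg v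
    have h5 : ∫ v in B..(B + δ), rr v ≤ ∫ v in B..(B + δ), rr (B + δ) :=
      intervalIntegral.integral_mono_on (by linarith) (hi _ _) (by simp) fun v hv => rr_mono hv.2
    rw [intervalIntegral.integral_const, smul_eq_mul] at h5
    linarith

lemma TT_eq {v δ : ℝ} (h0 : 0 ≤ δ) :
    TT v δ = Chebyshev.theta (Real.exp (v + δ)) - Chebyshev.theta (Real.exp v) := by
  unfold TT Chebyshev.theta
  have hle : ⌊Real.exp v⌋₊ ≤ ⌊Real.exp (v + δ)⌋₊ :=
    Nat.floor_le_floor (Real.exp_le_exp.2 (by linarith))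
  have e : Finset.Ioc 0 ⌊Real.exp (v + δ)⌋₊ =
      Finset.Ioc 0 ⌊Real.exp v⌋₊ ∪ Finset.Ioc ⌊Real.exp v⌋₊ ⌊Real.exp (v + δ)⌋₊ := by
    ext k
    simp only [Finset.mem_Ioc, Finset.mem_union]
    omega
  have hd : Disjoint ((Finset.Ioc 0 ⌊Real.exp v⌋₊).filter Nat.Prime)
      ((Finset.Ioc ⌊Real.exp v⌋₊ ⌊Real.exp (v + δ)⌋₊).filter Nat.Prime) := by
    rw [Finset.disjoint_left]
    intro k h1 h2
    rw [Finset.mem_filter, Finset.mem_Ioc] at h1 h2
    omega
  rw [e, Finset.filter_union, Finset.sum_union hd]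
  ring

/-- either the window has many primes or one of the two errors is large -/
lemma dich {v δ : ℝ} (h0 : 0 < δ) (h4 : 4 ≤ δ * Real.exp v) :
    1 / 4 * δ * Real.exp v ≤ TT v δ ∨
      1 ≤ 16 * ‖KS (v + δ) - KS v‖ ^ 2 / (δ * Real.exp v) ^ 2 + 4 * (rr (v + δ) - rr v) / (δ * Real.exp v) := by
  obtain ⟨H, hH⟩ : ∃ H : ℝ, H = δ * Real.exp v := ⟨_, rfl⟩
  have hH0 : 0 < H := by rw [hH]; positivity
  rw [← hH]
  rcases le_or_gt (1 / 4 * δ * Real.exp v) (TT v δ) with h | h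
  · exact Or.inl h
  right
  have h1 : TT v δ = (Chebyshev.psi (Real.exp (v + δ)) - Chebyshev.psi (Real.exp v)) - (rr (v + δ) - rr v) := by
    rw [TT_eq h0.le]
    unfold rr
    ring
  have h2 : KS (v + δ) - KS v = (((Chebyshev.psi (Real.exp (v + δ)) - (⌊Real.exp (v + δ)⌋₊ : ℝ)) -
      (Chebyshev.psi (Real.exp v) - (⌊Real.exp v⌋₊ : ℝ)) : ℝ) : ℂ) := by
    rw [KS_eq, KS_eq, ← Chebyshev.psi_eq_psi_coe_floor, ← Chebyshev.psi_eq_psi_coe_floor]
    push_cast
    ring
  have h3 : -‖KS (v + δ) - KS v‖ ≤ ((Chebyshev.psi (Real.exp (v + δ)) - (⌊Real.exp (v + δ)⌋₊ : ℝ)) -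
      (Chebyshev.psi (Real.exp v) - (⌊Real.exp v⌋₊ : ℝ)) : ℝ) := by
    rw [h2, Complex.norm_real, Real.norm_eq_abs]
    exact neg_abs_le _
  have h5 := Nat.lt_floor_add_one (Real.exp (v + δ))
  have h6 := Nat.floor_le (Real.exp_pos v).le
  have h7 : Real.exp v + H ≤ Real.exp (v + δ) := by
    rw [Real.exp_add, hH]
    have := Real.add_one_le_exp δ
    nlinarith [Real.exp_pos v]
  have h8 : TT v δ < H / 4 := by rw [hH]; linarith
  have h9 : 0 ≤ ‖KS (v + δ) - KS v‖ := norm_nonneg _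
  have h10 : 0 ≤ rr (v + δ) - rr v := sub_nonneg.2 (rr_mono (by linarith))
  have h11 : H / 2 ≤ ‖KS (v + δ) - KS v‖ + (rr (v + δ) - rr v) := by linarith
  rcases le_or_gt (H / 4) ‖KS (v + δ) - KS v‖ with h12 | h12
  · have h13 : 1 ≤ 16 * ‖KS (v + δ) - KS v‖ ^ 2 / H ^ 2 := by
      rw [le_div_iff₀ (by positivity)]
      nlinarith
    have h14 : 0 ≤ 4 * (rr (v + δ) - rr v) / H := by positivity
    linarith
  · have h13 : 1 ≤ 4 * (rr (v + δ) - rr v) / H := by
      rw [le_div_iff₀ hH0]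
      linarith
    have h14 : 0 ≤ 16 * ‖KS (v + δ) - KS v‖ ^ 2 / H ^ 2 := by positivity
    linarith

theorem step {θ c e : ℝ} (hθ : 1 / 2 ≤ θ) (hz : ∀ s : ℂ, θ < s.re → Zs s ≠ 0) (hc : θ < c) (hc1 : c < 1)
    (he : 0 < e) (he1 : e < 1) : ∃ C : ℝ, 0 < C ∧ ∀ A B δ G : ℝ, 0 ≤ A → A ≤ B → 0 < δ → δ ≤ 1 →
      4 ≤ δ * Real.exp A → 0 ≤ G → (∀ v ∈ Ioc A B, Real.exp ((4 * c - 3) * v) ≤ G) →
      JW A B ≤ 72 * PP (Real.exp (B + 1)) + (16 * δ ^ 2 * Real.exp B + 4) +
        C * (δ ^ (-1 - e) * G + Real.exp ((2 * c - 2) * A) * Real.exp (B / 2)) := by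
  obtain ⟨C1, hC1, H1⟩ := short_ms hθ hz hc hc1 he he1
  obtain ⟨CM, hCM, HM⟩ := mertens_bound (by linarith : 1 / 4 ≤ θ) hz hc (by linarith)
  obtain ⟨CR, hCR, HR⟩ := rr_le
  refine ⟨16 * CM ^ 2 * C1 + 8 * CM ^ 2 * CR, by positivity, fun A B δ G hA hAB h0 h1 h4 hGG hG => ?_⟩
  obtain ⟨hi1, hi2⟩ := H1 δ h0 h1
  obtain ⟨hr1, hr2⟩ := rr_shift hAB h0
  obtain ⟨W, hW⟩ : ∃ W : ℝ → ℝ, W = fun v => 16 * ‖KS (v + δ) - KS v‖ ^ 2 / (δ * Real.exp v) ^ 2 +
    4 * (rr (v + δ) - rr v) / (δ * Real.exp v) := ⟨_, rfl⟩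
  have hW0 : ∀ v, 0 ≤ W v := by
    intro v
    have h2 : 0 ≤ rr (v + δ) - rr v := sub_nonneg.2 (rr_mono (by linarith))
    rw [hW]
    positivity
  have hKm : Measurable KS := by
    unfold KS
    exact (measurable_from_top (f := fun n : ℕ => ∑ m ∈ Finset.Icc 1 n,
      ((Pool.Agent.W190.Q306.aL m : ℝ) : ℂ))).comp (Nat.measurable_floor.comp Real.measurable_exp)
  have hWm : Measurable W := by
    rw [hW]
    have m1 : Measurable fun v : ℝ => ‖KS (v + δ) - KS v‖ :=
      ((hKm.comp (measurable_id.add_const δ)).sub hKm).norm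
    have m2 : Measurable fun v : ℝ => rr (v + δ) - rr v :=
      ((rr_mono.measurable).comp (measurable_id.add_const δ)).sub rr_mono.measurable
    exact (((m1.pow_const 2).const_mul 16).div (by fun_prop)).add ((m2.const_mul 4).div (by fun_prop))
  -- the pointwise bound
  have hpt : ∀ v ∈ Ioc A B, Mx (Real.exp v) ^ 2 * Real.exp (-v) * W v ≤
      16 * CM ^ 2 * δ ^ (-2 : ℝ) * G * (‖KS (v + δ) - KS v‖ ^ 2 * Real.exp (-(2 * c * v))) +
        4 * CM ^ 2 * δ ^ (-1 : ℝ) * Real.exp ((2 * c - 2) * A) * (rr (v + δ) - rr v) := by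
    intro v hv
    have hv0 : 0 ≤ v := by linarith [hv.1]
    have hev := Real.exp_pos v
    have hM := HM (Real.exp v) (Real.one_le_exp hv0)
    rw [← Real.exp_mul] at hM
    have hM2 : Mx (Real.exp v) ^ 2 ≤ CM ^ 2 * Real.exp (2 * c * v) := by
      rw [← sq_abs]
      refine (pow_le_pow_left₀ (abs_nonneg _) hM 2).trans (le_of_eq ?_)
      rw [mul_pow, ← Real.exp_nat_mul]
      congr 2
      push_cast
      ring
    have hM3 : Mx (Real.exp v) ^ 2 * Real.exp (-v) ≤ CM ^ 2 * Real.exp ((2 * c - 1) * v) := by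
      refine (mul_le_mul_of_nonneg_right hM2 (Real.exp_pos _).le).trans (le_of_eq ?_)
      rw [mul_assoc, ← Real.exp_add]
      congr 2
      ring
    have h2 : 0 ≤ rr (v + δ) - rr v := sub_nonneg.2 (rr_mono (by linarith))
    refine (mul_le_mul_of_nonneg_right hM3 (hW0 v)).trans ?_
    rw [hW]
    simp only
    rw [mul_add]
    refine add_le_add ?_ ?_
    · have e1 : CM ^ 2 * Real.exp ((2 * c - 1) * v) * (16 * ‖KS (v + δ) - KS v‖ ^ 2 / (δ * Real.exp v) ^ 2) =
          16 * CM ^ 2 * δ ^ (-2 : ℝ) * Real.exp ((4 * c - 3) * v) *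
            (‖KS (v + δ) - KS v‖ ^ 2 * Real.exp (-(2 * c * v))) := by
        have e2 : Real.exp ((2 * c - 1) * v) =
            Real.exp ((4 * c - 3) * v) * Real.exp (-(2 * c * v)) * Real.exp v ^ 2 := by
          rw [← Real.exp_nat_mul, ← Real.exp_add, ← Real.exp_add]
          congr 1
          push_cast
          ring
        rw [e2, Real.rpow_neg h0.le]
        have : δ ^ (2:ℝ) = δ ^ 2 := by norm_cast
        rw [this]
        field_simp
      rw [e1]
      have h5 : 0 ≤ ‖KS (v + δ) - KS v‖ ^ 2 * Real.exp (-(2 * c * v)) := by positivity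
      refine mul_le_mul_of_nonneg_right ?_ h5
      exact mul_le_mul_of_nonneg_left (hG v hv) (by positivity)
    · have e1 : CM ^ 2 * Real.exp ((2 * c - 1) * v) * (4 * (rr (v + δ) - rr v) / (δ * Real.exp v)) =
          4 * CM ^ 2 * δ ^ (-1 : ℝ) * Real.exp ((2 * c - 2) * v) * (rr (v + δ) - rr v) := by
        have e2 : Real.exp ((2 * c - 1) * v) = Real.exp ((2 * c - 2) * v) * Real.exp v := by
          rw [← Real.exp_add]
          congr 1
          ring
        rw [e2, Real.rpow_neg h0.le, Real.rpow_one]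
        field_simp
      rw [e1]
      refine mul_le_mul_of_nonneg_right ?_ h2
      refine mul_le_mul_of_nonneg_left (Real.exp_le_exp.2 ?_) (by positivity)
      nlinarith [hv.1]
  have hdomi : IntegrableOn (fun v => 16 * CM ^ 2 * δ ^ (-2 : ℝ) * G *
      (‖KS (v + δ) - KS v‖ ^ 2 * Real.exp (-(2 * c * v))) +
        4 * CM ^ 2 * δ ^ (-1 : ℝ) * Real.exp ((2 * c - 2) * A) * (rr (v + δ) - rr v)) (Ioc A B) :=
    (hi1.const_mul _).integrableOn.add (hr1.const_mul _)
  have hWi : IntegrableOn (fun v : ℝ => Mx (Real.exp v) ^ 2 * Real.exp (-v) * W v) (Ioc A B) := by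
    refine hdomi.mono' ?_ ?_
    · have h5 : Measurable fun v : ℝ => Mx (Real.exp v) := Mx_meas.comp Real.measurable_exp
      exact (((h5.pow_const 2).mul (by fun_prop)).mul hWm).aestronglyMeasurable
    · refine (ae_restrict_mem measurableSet_Ioc).mono fun v hv => ?_
      rw [Real.norm_of_nonneg (by have := hW0 v; positivity)]
      exact hpt v hv
  have hg : ∀ v ∈ Ioc A B, 1 / 4 * δ * Real.exp v ≤ TT v δ ∨ 1 ≤ W v := by
    intro v hv
    have h5 : 4 ≤ δ * Real.exp v :=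
      h4.trans (mul_le_mul_of_nonneg_left (Real.exp_le_exp.2 hv.1.le) h0.le)
    rw [hW]
    exact dich h0 h5
  have key := cmp (η := 1 / 4) W hA hAB h0 h1 (by norm_num) hW0 hWi hg
  have hint : ∫ v in Ioc A B, Mx (Real.exp v) ^ 2 * Real.exp (-v) * W v ≤
      (16 * CM ^ 2 * C1 + 8 * CM ^ 2 * CR) * (δ ^ (-1 - e) * G + Real.exp ((2 * c - 2) * A) * Real.exp (B / 2)) := by
    have h5 := setIntegral_mono_on hWi hdomi measurableSet_Ioc hpt
    rw [integral_add ((hi1.const_mul _).integrableOn) (hr1.const_mul _), integral_const_mul,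
      integral_const_mul] at h5
    have h6 : ∫ v in Ioc A B, ‖KS (v + δ) - KS v‖ ^ 2 * Real.exp (-(2 * c * v)) ≤ C1 * δ ^ (1 - e) :=
      (setIntegral_le_integral hi1 (Eventually.of_forall fun v => by positivity)).trans hi2
    have h7 : 16 * CM ^ 2 * δ ^ (-2 : ℝ) * G * (∫ v in Ioc A B, ‖KS (v + δ) - KS v‖ ^ 2 * Real.exp (-(2 * c * v))) ≤
        16 * CM ^ 2 * C1 * (δ ^ (-1 - e) * G) := by
      refine (mul_le_mul_of_nonneg_left h6 (by positivity)).trans (le_of_eq ?_)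
      have e1 : δ ^ (-1 - e) = δ ^ (-2 : ℝ) * δ ^ (1 - e) := by
        rw [← Real.rpow_add h0]
        congr 1
        ring
      rw [e1]
      ring
    have h8 : rr (B + δ) ≤ 2 * CR * Real.exp (B / 2) := by
      refine (HR _).trans ?_
      have e1 : Real.exp ((B + δ) / 2) = Real.exp (B / 2) * Real.exp (δ / 2) := by
        rw [← Real.exp_add]
        congr 1
        ring
      rw [e1]
      have h9 : Real.exp (δ / 2) ≤ 2 := by
        have h10 : Real.exp (δ / 2) ^ 2 ≤ 2 ^ 2 := by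
          rw [← Real.exp_nat_mul]
          have : ((2:ℕ):ℝ) * (δ / 2) ≤ 1 := by push_cast; linarith
          exact (Real.exp_le_exp.2 this).trans (by linarith [Real.exp_one_lt_d9])
        exact le_of_pow_le_pow_left₀ (by norm_num) (by norm_num) h10
      have h10 := Real.exp_pos (B / 2)
      nlinarith [mul_pos hCR h10]
    have h9 : 4 * CM ^ 2 * δ ^ (-1 : ℝ) * Real.exp ((2 * c - 2) * A) * (∫ v in Ioc A B, (rr (v + δ) - rr v)) ≤
        8 * CM ^ 2 * CR * (Real.exp ((2 * c - 2) * A) * Real.exp (B / 2)) := by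
      have h10 : 4 * CM ^ 2 * δ ^ (-1 : ℝ) * Real.exp ((2 * c - 2) * A) * (∫ v in Ioc A B, (rr (v + δ) - rr v)) ≤
          4 * CM ^ 2 * δ ^ (-1 : ℝ) * Real.exp ((2 * c - 2) * A) * (δ * (2 * CR * Real.exp (B / 2))) := by
        refine mul_le_mul_of_nonneg_left (hr2.trans ?_) (by positivity)
        exact mul_le_mul_of_nonneg_left h8 h0.le
      refine h10.trans (le_of_eq ?_)
      rw [Real.rpow_neg h0.le, Real.rpow_one]
      field_simp
      ring
    have h10 : 0 ≤ 16 * CM ^ 2 * C1 * (Real.exp ((2 * c - 2) * A) * Real.exp (B / 2)) := by positivity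
    have h11 : 0 ≤ 8 * CM ^ 2 * CR * (δ ^ (-1 - e) * G) := by positivity
    nlinarith
  have h5 : PP (Real.exp (B + δ)) ≤ PP (Real.exp (B + 1)) := PP_mono (Real.exp_le_exp.2 (by linarith))
  have h6 : Real.exp (-A) ≤ 1 := by rw [Real.exp_le_one_iff]; linarith
  have h7 : (18 : ℝ) / (1 / 4) = 72 := by norm_num
  rw [h7] at key
  linarith

end

end Pool.Agent.E8helper68.WP
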