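import Pool.Agent.E8helper68.WP.WP3
import Pool.Agent.E8helper68.WP.WP4
import Pool.Agent.H313R3.TK.J
import Pool.Agent.TH223.AP.A4

/-! A bounded mean square of `M(p)/√p` over the primes implies the weak Mertens hypothesis. -/

set_option autoImplicit false

open MeasureTheory Filter Topology Set
open Pool.Agent.H295R2 (Mx JW Zs Mx_meas mertens_bound Zs_eq)
open Pool.Agent.W120.WM (NT ZC msq)

namespace Pool.Agent.E8helper68.WP

noncomputable section

lemma one_add_le {η A : ℝ} (h0 : 0 < η) (h1 : η ≤ 1) (hA : 0 ≤ A) : 1 + A ≤ Real.exp (η * A) / η := by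
  rw [le_div_iff₀ h0]
  have := Real.add_one_le_exp (η * A)
  nlinarith

lemma asym {c a b : ℝ} (K : ℝ) (hc : 0 < c) (ha : 0 < a) (hb : b < a) :
    ∀ᶠ A : ℝ in atTop, K * ((1 + A) ^ 2 * (1 + Real.exp (b * A))) < c * Real.exp (a * A) := by
  obtain ⟨m, hm⟩ : ∃ m : ℝ, m = min 1 (min a (a - b)) := ⟨_, rfl⟩
  have hm0 : 0 < m := by rw [hm]; exact lt_min one_pos (lt_min ha (by linarith))
  have hm1 : m ≤ 1 := by rw [hm]; exact min_le_left _ _
  have hm2 : m ≤ a := by rw [hm]; exact (min_le_right _ _).trans (min_le_left _ _)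
  have hm3 : m ≤ a - b := by rw [hm]; exact (min_le_right _ _).trans (min_le_right _ _)
  have h1 : ∀ᶠ A : ℝ in atTop, (32 * |K| / m ^ 2 + 1) / c < Real.exp (m / 2 * A) :=
    (Real.tendsto_exp_atTop.comp (tendsto_id.const_mul_atTop (by positivity : 0 < m / 2))).eventually_gt_atTop _
  filter_upwards [h1, eventually_ge_atTop (0:ℝ)] with A h2 hA
  have h3 := one_add_le (η := m / 4) (by positivity) (by linarith) hA
  have h4 : (1 + A) ^ 2 ≤ 16 / m ^ 2 * Real.exp (m / 2 * A) := by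
    refine (pow_le_pow_left₀ (by linarith) h3 2).trans (le_of_eq ?_)
    rw [div_pow, ← Real.exp_nat_mul]
    push_cast
    rw [show 2 * (m / 4 * A) = m / 2 * A by ring]
    field_simp
    norm_num
  have h5 : 1 + Real.exp (b * A) ≤ 2 * Real.exp ((a - m) * A) := by
    have h6 : 1 ≤ Real.exp ((a - m) * A) := Real.one_le_exp (mul_nonneg (by linarith) hA)
    have h7 : Real.exp (b * A) ≤ Real.exp ((a - m) * A) := Real.exp_le_exp.2 (by nlinarith)
    linarith
  rw [div_lt_iff₀ hc] at h2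
  have h6 : K * ((1 + A) ^ 2 * (1 + Real.exp (b * A))) ≤
      |K| * ((16 / m ^ 2 * Real.exp (m / 2 * A)) * (2 * Real.exp ((a - m) * A))) := by
    refine mul_le_mul (le_abs_self K) ?_ (by positivity) (abs_nonneg K)
    exact mul_le_mul h4 h5 (by positivity) (by positivity)
  have e1 : Real.exp (a * A) = Real.exp (m / 2 * A) * (Real.exp (m / 2 * A) * Real.exp ((a - m) * A)) := by
    rw [← Real.exp_add, ← Real.exp_add]
    congr 1
    ring
  have h7 : 0 < Real.exp (m / 2 * A) * Real.exp ((a - m) * A) := by positivity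
  calc K * ((1 + A) ^ 2 * (1 + Real.exp (b * A)))
      ≤ (32 * |K| / m ^ 2) * (Real.exp (m / 2 * A) * Real.exp ((a - m) * A)) := by
        refine h6.trans (le_of_eq ?_)
        ring
    _ < (Real.exp (m / 2 * A) * c) * (Real.exp (m / 2 * A) * Real.exp ((a - m) * A)) := by
        refine mul_lt_mul_of_pos_right ?_ h7
        linarith
    _ = c * Real.exp (a * A) := by rw [e1]; ring

lemma low_JW (ρ : ℂ) (hz : riemannZeta ρ = 0) (h0 : 1 / 2 ≤ ρ.re) (h1 : ρ.re < 1) :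
    ∃ c : ℝ, 0 < c ∧ ∀ᶠ A : ℝ in atTop, c * Real.exp ((2 * ρ.re - 1) * A) ≤ JW A (A + Real.log A) := by
  obtain ⟨c, hc, h⟩ := H313.TK.sq_low1 ρ hz h0 h1
  refine ⟨c, hc, ?_⟩
  filter_upwards [Real.tendsto_exp_atTop.eventually h, eventually_ge_atTop (1:ℝ)] with A hA hA1
  have h2 := hA 1 (Or.inl rfl)
  have hA0 : 0 < A := by linarith
  have hlA : 0 ≤ Real.log A := Real.log_nonneg hA1
  rw [Real.log_exp] at h2
  have e1 : Real.exp A * A = Real.exp (A + Real.log A) := by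
    rw [Real.exp_add, Real.exp_log hA0]
  rw [e1, ← Real.exp_mul, mul_comm A] at h2
  refine h2.trans ?_
  rw [← Pool.Agent.H295R2.IW_exp (A := A) (L := A + Real.log A) (by linarith)]
  have hle : Real.exp A ≤ Real.exp (A + Real.log A) := Real.exp_le_exp.2 (by linarith)
  have hMm : Measurable H313.TK.MM := Mx_meas
  have hMb : ∀ y ∈ Ioc (Real.exp A) (Real.exp (A + Real.log A)), |H313.TK.MM y / y| ≤ 1 := by
    intro y hy
    have hy0 : 0 < y := (Real.exp_pos A).trans hy.1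
    rw [abs_div, abs_of_pos hy0, div_le_one hy0]
    exact H313.TK.abs_MM_le hy0.le
  rw [intervalIntegral.integral_of_le hle, intervalIntegral.integral_of_le hle]
  refine setIntegral_mono_on ?_ ?_ measurableSet_Ioc (fun y hy => ?_)
  · refine Integrable.mono' (g := fun _ => (1:ℝ)) (integrableOn_const (by simp)) ?_ ?_
    · exact (((((hMm.const_mul 1).max measurable_const).div measurable_id).pow_const 2)).aestronglyMeasurable
    · refine (ae_restrict_mem measurableSet_Ioc).mono fun y hy => ?_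
      have h3 := hMb y hy
      have hy0 : 0 < y := (Real.exp_pos A).trans hy.1
      rw [Real.norm_of_nonneg (by positivity), one_mul]
      have h4 : |max (H313.TK.MM y) 0 / y| ≤ 1 := by
        rw [abs_div, abs_of_pos hy0] at h3 ⊢
        refine le_trans (div_le_div_of_nonneg_right ?_ hy0.le) h3
        rw [abs_of_nonneg (le_max_right _ _)]
        exact max_le (le_abs_self _) (abs_nonneg _)
      rw [← sq_abs]
      exact pow_le_one₀ (abs_nonneg _) h4
  · refine Integrable.mono' (g := fun _ => (1:ℝ)) (integrableOn_const (by simp)) ?_ ?_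
    · exact ((hMm.div measurable_id).pow_const 2).aestronglyMeasurable
    · refine (ae_restrict_mem measurableSet_Ioc).mono fun y hy => ?_
      have h3 := hMb y hy
      rw [Real.norm_of_nonneg (by positivity), ← sq_abs]
      exact pow_le_one₀ (abs_nonneg _) h3
  · have hy0 : 0 < y := (Real.exp_pos A).trans hy.1
    rw [div_pow, div_pow, one_mul]
    refine div_le_div_of_nonneg_right ?_ (by positivity)
    have h3 : |max (H313.TK.MM y) 0| ≤ |H313.TK.MM y| := by
      rw [abs_of_nonneg (le_max_right _ _)]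
      exact max_le (le_abs_self _) (abs_nonneg _)
    exact sq_le_sq.2 h3

/-- the bound for the windows used in both steps -/
lemma freq_windows {C : ℝ} (hP : ∃ᶠ x : ℝ in atTop, PP x ≤ C * Real.log x) :
    ∃ᶠ A : ℝ in atTop, PP (Real.exp (A + Real.log A + 1)) ≤ |C| * (2 * A) := by
  have ht : Tendsto (fun x : ℝ => Real.log x / 2) atTop atTop :=
    Real.tendsto_log_atTop.atTop_div_const (by norm_num)
  refine ht.frequently ?_
  have h1 : ∀ᶠ A : ℝ in atTop, Real.log A + 1 ≤ A := by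
    filter_upwards [eventually_ge_atTop (0:ℝ), Real.isLittleO_log_id_atTop.bound (c := 1/2) (by norm_num),
      eventually_ge_atTop (2:ℝ)] with A hA h2 h3
    rw [id, Real.norm_eq_abs, Real.norm_eq_abs, abs_of_nonneg hA] at h2
    have := le_abs_self (Real.log A)
    linarith
  refine (hP.and_eventually ((ht.eventually h1).and (eventually_gt_atTop (1:ℝ)))).mono fun x hx => ?_
  obtain ⟨h2, h3, h4⟩ := hx
  have hx0 : 0 < x := by linarith
  have hl : 0 ≤ Real.log x := Real.log_nonneg h4.le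
  have h5 : PP (Real.exp (Real.log x / 2 + Real.log (Real.log x / 2) + 1)) ≤ PP x := by
    refine PP_mono ?_
    calc Real.exp (Real.log x / 2 + Real.log (Real.log x / 2) + 1) ≤ Real.exp (Real.log x) :=
          Real.exp_le_exp.2 (by linarith)
      _ = x := Real.exp_log hx0
  refine h5.trans (h2.trans ?_)
  have := le_abs_self C
  nlinarith

lemma zeros_le {C : ℝ} (hP : ∃ᶠ x : ℝ in atTop, PP x ≤ C * Real.log x) :
    ∃ κ : ℝ, κ < 1 ∧ ∀ ρ ∈ NT, ρ.re ≤ κ := by
  obtain ⟨δ0, K, A0, h1, h2, hK, hA0, H⟩ := hoh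
  refine ⟨max (1 / 2) (1 - δ0), max_lt (by norm_num) (by linarith), fun ρ hρ => ?_⟩
  by_contra hcon
  push Not at hcon
  have hb1 : 1 / 2 < ρ.re := (le_max_left _ _).trans_lt hcon
  have hb2 : 1 - δ0 < ρ.re := (le_max_right _ _).trans_lt hcon
  obtain ⟨c, hc, hlow⟩ := low_JW ρ hρ.1 hb1.le hρ.2.2
  have has := asym (c := c) (a := 2 * ρ.re - 1) (b := 1 - 2 * δ0) (K * (2 * |C| + 1)) hc (by linarith)
    (by linarith)
  obtain ⟨A, hA1, hA2, hA3, hA4, hA5⟩ := ((freq_windows hP).and_eventually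
    (hlow.and (has.and ((eventually_ge_atTop A0).and (eventually_ge_atTop (1:ℝ)))))).exists
  have hlA : 0 ≤ Real.log A := Real.log_nonneg hA5
  have hAp : 0 < A := by linarith
  have h3 := H A (A + Real.log A) hA4 (by linarith)
  have e1 : Real.exp (A + Real.log A - 2 * δ0 * A) = A * Real.exp ((1 - 2 * δ0) * A) := by
    rw [← Real.exp_log hAp, ← Real.exp_add, Real.exp_log hAp]
    congr 1
    ring
  rw [e1] at h3
  have hE := Real.exp_pos ((1 - 2 * δ0) * A)
  have h4 : PP (Real.exp (A + Real.log A + 1)) + (A * Real.exp ((1 - 2 * δ0) * A) + 1) ≤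
      (2 * |C| + 1) * ((1 + A) ^ 2 * (1 + Real.exp ((1 - 2 * δ0) * A))) := by
    have h5 := abs_nonneg C
    have h6 : A ≤ (1 + A) ^ 2 * (1 + Real.exp ((1 - 2 * δ0) * A)) := by nlinarith [mul_nonneg hE.le (sq_nonneg (1 + A))]
    have h7 : A * Real.exp ((1 - 2 * δ0) * A) + 1 ≤ (1 + A) ^ 2 * (1 + Real.exp ((1 - 2 * δ0) * A)) := by
      nlinarith [mul_nonneg hE.le hAp.le, mul_nonneg hE.le (mul_nonneg hAp.le hAp.le)]
    nlinarith
  have h5 : K * PP (Real.exp (A + Real.log A + 1)) + K * (A * Real.exp ((1 - 2 * δ0) * A) + 1) ≤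
      K * (2 * |C| + 1) * ((1 + A) ^ 2 * (1 + Real.exp ((1 - 2 * δ0) * A))) := by
    rw [← mul_add, mul_assoc]
    exact mul_le_mul_of_nonneg_left h4 hK.le
  linarith

lemma free_of {θ : ℝ} (h : ∀ ρ ∈ NT, ρ.re ≤ θ) (h0 : 0 < θ) : ∀ s : ℂ, θ < s.re → Zs s ≠ 0 := by
  intro s hs
  by_cases h1 : 1 ≤ s.re
  · exact Pool.Agent.H295R2.Zs_ne_zero_of_one_le h1
  · have hs1 : s ≠ 1 := by
      rintro rfl
      simp at h1
    rw [← Zs_eq hs1]
    refine mul_ne_zero (sub_ne_zero.2 hs1) fun h2 => ?_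
    have := h s ⟨h2, by linarith, by linarith⟩
    linarith

theorem zeros_half {C : ℝ} (hP : ∃ᶠ x : ℝ in atTop, PP x ≤ C * Real.log x) : ∀ ρ ∈ NT, ρ.re ≤ 1 / 2 := by
  obtain ⟨κ, hκ, hκ2⟩ := zeros_le hP
  obtain ⟨S, hS⟩ : ∃ S : Set ℝ, S = {x | ∃ ρ ∈ NT, x = ρ.re} := ⟨_, rfl⟩
  have hSb : BddAbove S := ⟨κ, by rw [hS]; rintro x ⟨ρ, hρ, rfl⟩; exact hκ2 ρ hρ⟩
  have hSn : S.Nonempty := by
    obtain ⟨ρ, hρ⟩ := Pool.Agent.TH223.AP.exists_zero
    exact ⟨ρ.re, by rw [hS]; exact ⟨ρ, hρ, rfl⟩⟩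
  obtain ⟨θ, hθ⟩ : ∃ θ : ℝ, θ = sSup S := ⟨_, rfl⟩
  have hle : ∀ ρ ∈ NT, ρ.re ≤ θ := fun ρ hρ => by
    rw [hθ]
    exact le_csSup hSb (by rw [hS]; exact ⟨ρ, hρ, rfl⟩)
  have hθ1 : θ < 1 := by
    rw [hθ]
    refine (csSup_le hSn ?_).trans_lt hκ
    rw [hS]
    rintro x ⟨ρ, hρ, rfl⟩
    exact hκ2 ρ hρ
  suffices h : θ ≤ 1 / 2 from fun ρ hρ => (hle ρ hρ).trans h
  by_contra hcon
  push Not at hcon
  obtain ⟨γ, hγ⟩ : ∃ γ : ℝ, γ = 1 - θ := ⟨_, rfl⟩
  have hγ0 : 0 < γ := by linarith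
  have hγ1 : γ < 1 / 2 := by linarith
  obtain ⟨x, hxS, hx⟩ := exists_lt_of_lt_csSup hSn (show max (1 / 2) (θ - γ / 16) < sSup S by
    rw [← hθ]; exact max_lt hcon (by linarith))
  rw [hS] at hxS
  obtain ⟨ρ, hρ, rfl⟩ := hxS
  have hb1 : 1 / 2 < ρ.re := (le_max_left _ _).trans_lt hx
  have hb2 : θ - γ / 16 < ρ.re := (le_max_right _ _).trans_lt hx
  have hz := free_of hle (by linarith)
  obtain ⟨K, hK, H⟩ := step (θ := θ) (c := θ + γ / 32) (e := 1 / 16) hcon.le hz (by linarith) (by linarith)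
    (by norm_num) (by norm_num)
  obtain ⟨c, hc, hlow⟩ := low_JW ρ hρ.1 hb1.le hρ.2.2
  obtain ⟨b, hb⟩ : ∃ b : ℝ, b = 1 - 9 / 4 * γ := ⟨_, rfl⟩
  have has := asym (c := c) (a := 2 * ρ.re - 1) (b := b) (144 * |C| + 20 + 2 * K) hc (by linarith)
    (by rw [hb]; linarith)
  have hbig : ∀ᶠ A : ℝ in atTop, 4 ≤ Real.exp ((1 - 9 / 8 * γ) * A) :=
    (Real.tendsto_exp_atTop.comp (tendsto_id.const_mul_atTop (by linarith : 0 < 1 - 9 / 8 * γ))).eventually_ge_atTop _
  obtain ⟨A, hA1, hA2, hA3, hA4, hA5⟩ := ((freq_windows hP).and_eventually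
    (hlow.and (has.and (hbig.and (eventually_ge_atTop (1:ℝ)))))).exists
  have hlA : 0 ≤ Real.log A := Real.log_nonneg hA5
  have hAp : 0 < A := by linarith
  obtain ⟨δ, hδ⟩ : ∃ δ : ℝ, δ = Real.exp (-(9 / 8 * γ * A)) := ⟨_, rfl⟩
  have hδ1 : δ ≤ 1 := by
    rw [hδ, Real.exp_le_one_iff]
    have : 0 < γ * A := by positivity
    linarith
  have hδA : 4 ≤ δ * Real.exp A := by
    rw [hδ, ← Real.exp_add]
    refine hA4.trans (le_of_eq ?_)
    congr 1
    ring
  have h3 := H A (A + Real.log A) δ (A * Real.exp ((4 * (θ + γ / 32) - 3) * A)) (by linarith) (by linarith)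
    (by rw [hδ]; exact Real.exp_pos _) hδ1 hδA (by positivity) (fun v hv => ?_)
  · have hE := Real.exp_pos (b * A)
    have e1 : 16 * δ ^ 2 * Real.exp (A + Real.log A) = 16 * (A * Real.exp (b * A)) := by
      rw [hδ, ← Real.exp_nat_mul, Real.exp_add, Real.exp_log hAp, hb]
      have : Real.exp ((1 - 9 / 4 * γ) * A) = Real.exp (((2:ℕ):ℝ) * -(9 / 8 * γ * A)) * Real.exp A := by
        rw [← Real.exp_add]
        congr 1
        push_cast
        ring
      rw [this]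
      ring
    have e2 : δ ^ (-1 - 1 / 16 : ℝ) * (A * Real.exp ((4 * (θ + γ / 32) - 3) * A)) ≤ A * Real.exp (b * A) := by
      rw [hδ, ← Real.exp_mul]
      have h4 : Real.exp (-(9 / 8 * γ * A) * (-1 - 1 / 16)) * (A * Real.exp ((4 * (θ + γ / 32) - 3) * A)) =
          A * Real.exp ((4 * (θ + γ / 32) - 3 + 9 / 8 * (17 / 16) * γ) * A) := by
        have : Real.exp ((4 * (θ + γ / 32) - 3 + 9 / 8 * (17 / 16) * γ) * A) =
            Real.exp (-(9 / 8 * γ * A) * (-1 - 1 / 16)) * Real.exp ((4 * (θ + γ / 32) - 3) * A) := by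
          rw [← Real.exp_add]
          congr 1
          ring
        rw [this]
        ring
      rw [h4]
      refine mul_le_mul_of_nonneg_left (Real.exp_le_exp.2 ?_) hAp.le
      refine mul_le_mul_of_nonneg_right ?_ hAp.le
      rw [hb]
      linarith
    have e3 : Real.exp ((2 * (θ + γ / 32) - 2) * A) * Real.exp ((A + Real.log A) / 2) ≤ A * Real.exp (b * A) := by
      have h4 : Real.exp ((A + Real.log A) / 2) ≤ Real.exp (A / 2) * A := by
        rw [show (A + Real.log A) / 2 = A / 2 + Real.log A / 2 by ring, Real.exp_add]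
        refine mul_le_mul_of_nonneg_left ?_ (Real.exp_pos _).le
        calc Real.exp (Real.log A / 2) ≤ Real.exp (Real.log A) := Real.exp_le_exp.2 (by linarith)
          _ = A := Real.exp_log hAp
      refine (mul_le_mul_of_nonneg_left h4 (Real.exp_pos _).le).trans ?_
      rw [← mul_assoc, ← Real.exp_add, mul_comm]
      refine mul_le_mul_of_nonneg_left (Real.exp_le_exp.2 ?_) hAp.le
      have : (2 * (θ + γ / 32) - 2) * A + A / 2 = (2 * (θ + γ / 32) - 3 / 2) * A := by ring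
      rw [this]
      refine mul_le_mul_of_nonneg_right ?_ hAp.le
      rw [hb]
      linarith
    have h6 : A ≤ (1 + A) ^ 2 * (1 + Real.exp (b * A)) := by nlinarith [mul_nonneg hE.le (sq_nonneg (1 + A))]
    have h7 : 1 ≤ (1 + A) ^ 2 * (1 + Real.exp (b * A)) := by nlinarith [mul_nonneg hE.le (sq_nonneg (1 + A))]
    have h8 : A * Real.exp (b * A) ≤ (1 + A) ^ 2 * (1 + Real.exp (b * A)) := by
      nlinarith [mul_nonneg hE.le hAp.le, mul_nonneg hE.le (mul_nonneg hAp.le hAp.le)]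
    rw [e1] at h3
    have h9 := abs_nonneg C
    obtain ⟨Q, hQ⟩ : ∃ Q : ℝ, Q = (1 + A) ^ 2 * (1 + Real.exp (b * A)) := ⟨_, rfl⟩
    rw [← hQ] at h6 h7 h8 hA3
    have h10 : JW A (A + Real.log A) ≤ (144 * |C| + 20 + 2 * K) * Q := by
      refine h3.trans ?_
      have t1 : 72 * PP (Real.exp (A + Real.log A + 1)) ≤ 144 * |C| * Q := by nlinarith
      have t2 : 16 * (A * Real.exp (b * A)) + 4 ≤ 20 * Q := by linarith
      have t3 : K * (δ ^ (-1 - 1 / 16 : ℝ) * (A * Real.exp ((4 * (θ + γ / 32) - 3) * A)) +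
          Real.exp ((2 * (θ + γ / 32) - 2) * A) * Real.exp ((A + Real.log A) / 2)) ≤ 2 * K * Q := by
        rw [mul_comm 2 K, mul_assoc]
        exact mul_le_mul_of_nonneg_left (by linarith) hK.le
      linarith
    linarith
  · rw [← Real.exp_log hAp, ← Real.exp_add, Real.exp_log hAp]
    refine Real.exp_le_exp.2 ?_
    have h4 : (4 * (θ + γ / 32) - 3) ≤ 1 := by linarith
    have h5 : 0 ≤ v - A := by linarith [hv.1]
    have h6 : v - A ≤ Real.log A := by linarith [hv.2]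
    nlinarith

theorem freq_ZC {C : ℝ} (hP : ∃ᶠ x : ℝ in atTop, PP x ≤ C * Real.log x) : ZC := by
  have hz := free_of (zeros_half hP) (by norm_num)
  obtain ⟨K, hK, H⟩ := step (θ := 1 / 2) (c := 17 / 32) (e := 1 / 16) le_rfl hz (by norm_num) (by norm_num)
    (by norm_num) (by norm_num)
  refine (Pool.Agent.W120.WM.sparse_ZC (δ := 1 / 3) (C := 144 * |C| + 20 + 2 * K) (by norm_num) (by norm_num) ?_).1
  have ht : Tendsto (fun x : ℝ => x / Real.exp 1) atTop atTop :=
    tendsto_id.atTop_div_const (Real.exp_pos 1)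
  refine ht.frequently ?_
  have hbig : ∀ᶠ x : ℝ in atTop, 25 ≤ Real.log x := Real.tendsto_log_atTop.eventually_ge_atTop _
  refine (hP.and_eventually (hbig.and (eventually_gt_atTop (0:ℝ)))).mono fun x hx => ?_
  obtain ⟨h1, h2, hx0⟩ := hx
  obtain ⟨A, hA⟩ : ∃ A : ℝ, A = 2 / 3 * (Real.log x - 1) := ⟨_, rfl⟩
  have hA0 : 16 ≤ A := by rw [hA]; linarith
  have hy : x / Real.exp 1 = Real.exp (3 / 2 * A) := by
    rw [hA, show 3 / 2 * (2 / 3 * (Real.log x - 1)) = Real.log x - 1 by ring, Real.exp_sub, Real.exp_log hx0]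
  have hy1 : 1 ≤ x / Real.exp 1 := by rw [hy]; exact Real.one_le_exp (by linarith)
  have hy0 : 0 < x / Real.exp 1 := by linarith
  have hpow : (x / Real.exp 1) ^ ((1:ℝ) - 1 / 3) = Real.exp A := by
    rw [hy, ← Real.exp_mul]
    congr 1
    ring
  rw [hpow, Pool.Agent.W120.WM.msq_eq (Real.exp_pos A) (by rw [hy]; exact Real.exp_le_exp.2 (by linarith)),
    Real.log_exp, hy, Real.log_exp]
  obtain ⟨δ, hδ⟩ : ∃ δ : ℝ, δ = Real.exp (-(3 / 4 * A)) := ⟨_, rfl⟩
  have h3 := H A (3 / 2 * A) δ (Real.exp ((4 * (17 / 32) - 3) * A)) (by linarith) (by linarith)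
    (by rw [hδ]; exact Real.exp_pos _) (by rw [hδ, Real.exp_le_one_iff]; linarith) (by
      rw [hδ, ← Real.exp_add]
      have h4 := Real.add_one_le_exp (-(3 / 4 * A) + A)
      linarith) (Real.exp_pos _).le (fun v hv => Real.exp_le_exp.2 (by nlinarith [hv.1]))
  have e1 : 16 * δ ^ 2 * Real.exp (3 / 2 * A) = 16 := by
    rw [hδ, ← Real.exp_nat_mul, mul_assoc, ← Real.exp_add]
    push_cast
    rw [show 2 * -(3 / 4 * A) + 3 / 2 * A = 0 by ring, Real.exp_zero]
    norm_num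
  have e2 : δ ^ (-1 - 1 / 16 : ℝ) * Real.exp ((4 * (17 / 32) - 3) * A) ≤ 1 := by
    rw [hδ, ← Real.exp_mul, ← Real.exp_add, Real.exp_le_one_iff]
    nlinarith
  have e3 : Real.exp ((2 * (17 / 32) - 2) * A) * Real.exp (3 / 2 * A / 2) ≤ 1 := by
    rw [← Real.exp_add, Real.exp_le_one_iff]
    nlinarith
  have h4 : PP (Real.exp (3 / 2 * A + 1)) ≤ |C| * (3 / 2 * A + 1) := by
    have h5 : Real.exp (3 / 2 * A + 1) = x := by
      rw [hA, show 3 / 2 * (2 / 3 * (Real.log x - 1)) + 1 = Real.log x by ring, Real.exp_log hx0]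
    rw [h5]
    refine h1.trans ?_
    have h6 : 3 / 2 * A + 1 = Real.log x := by rw [hA]; ring
    rw [h6]
    exact mul_le_mul_of_nonneg_right (le_abs_self C) (by linarith)
  rw [e1] at h3
  have h5 := abs_nonneg C
  have h6 : K * (δ ^ (-1 - 1 / 16 : ℝ) * Real.exp ((4 * (17 / 32) - 3) * A) +
      Real.exp ((2 * (17 / 32) - 2) * A) * Real.exp (3 / 2 * A / 2)) ≤ K * 2 :=
    mul_le_mul_of_nonneg_left (by linarith) hK.le
  have h7 : 1 ≤ 3 / 2 * A := by linarith
  nlinarith [mul_nonneg h5 (by linarith : 0 ≤ 3 / 2 * A - 1), mul_nonneg hK.le (by linarith : 0 ≤ 3 / 2 * A - 1)]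

end

end Pool.Agent.E8helper68.WP
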