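import Pool.Agent.TH223.AP.A5
import Pool.Agent.W190.Q306.A2

/-! Means over the primes of trigonometric polynomials of `log p`. -/

set_option autoImplicit false

open MeasureTheory Filter Topology Set
open Pool.Agent.TH223.AP (ex ex_cont norm_ex mean_ex TPA TPA_mean exM mn poly_mem mean_real abs_mn_sub_le mn_const
  mean_comp)

namespace Pool.Agent.E8helper68.WP

noncomputable section

/-- the mean over the primes up to `x`, with weights `log p / p`, of the values at `log p` -/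
def PC (g : ℝ → ℂ) (x : ℝ) : ℂ :=
  (∑ p ∈ (Finset.Icc 1 ⌊x⌋₊).filter Nat.Prime, ((Real.log p / p : ℝ) : ℂ) * g (Real.log p)) / (Real.log x : ℂ)

/-- the same for real functions -/
def PR (g : ℝ → ℝ) (x : ℝ) : ℝ :=
  (∑ p ∈ (Finset.Icc 1 ⌊x⌋₊).filter Nat.Prime, Real.log p / p * g (Real.log p)) / Real.log x

/-- the bound for the prime number theorem that we use -/
def PNTb (C : ℝ) : Prop := ∀ y : ℝ, 1 ≤ y → |Chebyshev.theta y - y| ≤ C * y ^ (3 / 4 : ℝ)

lemma pnt_of_free (hz : ∀ s : ℂ, 1 / 2 < s.re → Pool.Agent.H295R2.Zs s ≠ 0) : ∃ C : ℝ, 0 < C ∧ PNTb C := by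
  obtain ⟨C, hC, h⟩ := Pool.Agent.W190.Q306.psi_bound (θ := 1 / 2) (σ := 3 / 4) (by norm_num) hz (by norm_num)
    (by norm_num)
  obtain ⟨C', hC'⟩ := Chebyshev.psi_sub_theta_le_mul_sqrt
  refine ⟨C + |C'|, by positivity, fun y hy => ?_⟩
  have h1 := h y hy
  have h2 := hC' y
  have h3 := Chebyshev.theta_le_psi y
  have h4 : √y ≤ y ^ (3 / 4 : ℝ) := by
    rw [Real.sqrt_eq_rpow]
    exact Real.rpow_le_rpow_of_exponent_le hy (by norm_num)
  have h5 : C' * √y ≤ |C'| * y ^ (3 / 4 : ℝ) :=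
    mul_le_mul (le_abs_self _) h4 (Real.sqrt_nonneg _) (abs_nonneg _)
  rw [abs_le] at h1 ⊢
  constructor <;> nlinarith [h1.1, h1.2]

/-- `t^{-1+il}` -/
def fe (l t : ℝ) : ℂ := Complex.exp ((-1 + Complex.I * l) * (Real.log t : ℂ))

lemma fe_deriv (l : ℝ) {t : ℝ} (ht : 0 < t) :
    HasDerivAt (fe l) ((-1 + Complex.I * l) * ((t⁻¹ : ℝ) : ℂ) * fe l t) t := by
  have h1 : HasDerivAt (fun t : ℝ => ((Real.log t : ℝ) : ℂ)) ((t⁻¹ : ℝ) : ℂ) t :=
    (Real.hasDerivAt_log ht.ne').ofReal_comp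
  have h2 := (h1.const_mul (-1 + Complex.I * l)).cexp
  unfold fe
  refine h2.congr_deriv ?_
  ring

lemma fe_eq (l : ℝ) {t : ℝ} (ht : 0 < t) : fe l t = ((t⁻¹ : ℝ) : ℂ) * ex l (Real.log t) := by
  unfold fe ex
  rw [add_mul, Complex.exp_add]
  congr 1
  rw [show (-1 : ℂ) * (Real.log t : ℂ) = ((-(Real.log t) : ℝ) : ℂ) by push_cast; ring, ← Complex.ofReal_exp,
    Real.exp_neg, Real.exp_log ht]

lemma fe_norm (l : ℝ) {t : ℝ} (ht : 0 < t) : ‖fe l t‖ = t⁻¹ := by
  rw [fe_eq l ht, norm_mul, norm_ex, mul_one, Complex.norm_real, Real.norm_of_nonneg (by positivity)]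

lemma fe_contOn (l b : ℝ) : ContinuousOn (fe l) (Icc 1 b) := fun t ht =>
  (fe_deriv l (by linarith [ht.1])).continuousAt.continuousWithinAt

lemma int_fe (l : ℝ) {x : ℝ} (hx : 1 ≤ x) : ∫ t in Ioc 1 x, fe l t = ∫ v in (0:ℝ)..(Real.log x), ex l v := by
  rw [← intervalIntegral.integral_of_le hx]
  have h1 := intervalIntegral.integral_deriv_smul_comp (a := 1) (b := x) (f := Real.log) (f' := fun t => t⁻¹)
    (g := ex l) (fun t ht => Real.hasDerivAt_log (by
      rw [uIcc_of_le hx] at ht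
      linarith [ht.1])) (by
      rw [uIcc_of_le hx]
      exact ContinuousOn.inv₀ continuousOn_id fun t ht => (by have h := ht.1; exact (by linarith : (0:ℝ) < t).ne'))
      (ex_cont l)
  rw [Real.log_one] at h1
  rw [← h1]
  refine intervalIntegral.integral_congr fun t ht => ?_
  rw [uIcc_of_le hx] at ht
  simp only [Function.comp]
  rw [fe_eq l (by linarith [ht.1]), Complex.real_smul]

/-- Abel summation -/
lemma sum_ex (l : ℝ) {x : ℝ} (hx : 1 ≤ x) :
    ∑ p ∈ (Finset.Icc 1 ⌊x⌋₊).filter Nat.Prime, ((Real.log p / p : ℝ) : ℂ) * ex l (Real.log p) =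
      fe l x * (Chebyshev.theta x : ℂ) - (-1 + Complex.I * l) * (∫ v in (0:ℝ)..(Real.log x), ex l v) -
        ∫ t in Ioc 1 x, (-1 + Complex.I * l) * ((t⁻¹ : ℝ) : ℂ) * fe l t * ((Chebyshev.theta t - t : ℝ) : ℂ) := by
  obtain ⟨c, hc⟩ : ∃ c : ℕ → ℂ, c = fun k => if k.Prime then ((Real.log k : ℝ) : ℂ) else 0 := ⟨_, rfl⟩
  have hsum : ∀ t : ℝ, ∑ k ∈ Finset.Icc 0 ⌊t⌋₊, c k = (Chebyshev.theta t : ℂ) := by
    intro t
    rw [Chebyshev.theta_eq_sum_Icc, Finset.sum_filter, hc]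
    push_cast
    refine Finset.sum_congr rfl fun k _ => ?_
    split_ifs <;> simp
  have hd : ∀ t ∈ Icc 1 x, DifferentiableAt ℝ (fe l) t := fun t ht =>
    (fe_deriv l (by linarith [ht.1])).differentiableAt
  have hde : ∀ t ∈ Icc 1 x, deriv (fe l) t = (-1 + Complex.I * l) * ((t⁻¹ : ℝ) : ℂ) * fe l t := fun t ht =>
    (fe_deriv l (by linarith [ht.1])).deriv
  have hcont : ContinuousOn (fun t : ℝ => (-1 + Complex.I * l) * ((t⁻¹ : ℝ) : ℂ) * fe l t) (Icc 1 x) := by
    refine ((continuousOn_const).mul ?_).mul (fe_contOn l x)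
    exact Complex.continuous_ofReal.comp_continuousOn
      (ContinuousOn.inv₀ continuousOn_id fun t ht => (by have h := ht.1; exact (by linarith : (0:ℝ) < t).ne'))
  have hint : IntegrableOn (deriv (fe l)) (Icc 1 x) :=
    (hcont.integrableOn_Icc).congr_fun (fun t ht => (hde t ht).symm) measurableSet_Icc
  have h1 := sum_mul_eq_sub_integral_mul₀ (c := c) (f := fe l) (by rw [hc]; simp [Nat.not_prime_zero]) x hd hint
  simp only [hsum] at h1
  have e1 : ∑ k ∈ Finset.Icc 0 ⌊x⌋₊, fe l k * c k =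
      ∑ p ∈ (Finset.Icc 1 ⌊x⌋₊).filter Nat.Prime, ((Real.log p / p : ℝ) : ℂ) * ex l (Real.log p) := by
    rw [Finset.sum_filter]
    have e2 : Finset.Icc 1 ⌊x⌋₊ ⊆ Finset.Icc 0 ⌊x⌋₊ := Finset.Icc_subset_Icc_left (by norm_num)
    rw [← Finset.sum_subset e2]
    · refine Finset.sum_congr rfl fun p hp => ?_
      rw [Finset.mem_Icc] at hp
      rw [hc]
      simp only
      split_ifs with hpp
      · rw [fe_eq l (by exact_mod_cast hp.1)]
        push_cast
        ring
      · rw [mul_zero]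
    · intro k hk hk2
      have : k = 0 := by
        rw [Finset.mem_Icc] at hk hk2
        omega
      rw [this, hc]
      simp [Nat.not_prime_zero]
  rw [e1] at h1
  rw [h1]
  have e3 : ∫ t in Ioc 1 x, deriv (fe l) t * (Chebyshev.theta t : ℂ) =
      (-1 + Complex.I * l) * (∫ v in (0:ℝ)..(Real.log x), ex l v) +
        ∫ t in Ioc 1 x, (-1 + Complex.I * l) * ((t⁻¹ : ℝ) : ℂ) * fe l t * ((Chebyshev.theta t - t : ℝ) : ℂ) := by
    rw [← int_fe l hx, ← integral_const_mul, ← integral_add]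
    · refine setIntegral_congr_fun measurableSet_Ioc fun t ht => ?_
      rw [hde t (Ioc_subset_Icc_self ht)]
      have ht0 : (t : ℂ) ≠ 0 := by exact_mod_cast (by linarith [ht.1] : t ≠ 0)
      push_cast
      field_simp
      ring
    · exact ((continuousOn_const.mul (fe_contOn l x)).integrableOn_Icc).mono_set Ioc_subset_Icc_self
    · have m1 : IntegrableOn (fun t : ℝ => ((Chebyshev.theta t - t : ℝ) : ℂ)) (Icc 1 x) := by
        refine Integrable.ofReal ?_
        have m2 : IntegrableOn Chebyshev.theta (Icc 1 x) := by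
          have := (Chebyshev.theta_mono.intervalIntegrable (μ := volume) (a := 1) (b := x))
          rwa [intervalIntegrable_iff_integrableOn_Icc_of_le hx] at this
        exact m2.sub (continuousOn_id.integrableOn_Icc)
      exact (m1.continuousOn_mul hcont isCompact_Icc).mono_set Ioc_subset_Icc_self
  rw [e3]
  ring

lemma err_bound {C : ℝ} (hC : 0 < C) (h : PNTb C) (l : ℝ) {x : ℝ} (hx : 1 ≤ x) :
    ‖∫ t in Ioc 1 x, (-1 + Complex.I * l) * ((t⁻¹ : ℝ) : ℂ) * fe l t * ((Chebyshev.theta t - t : ℝ) : ℂ)‖ ≤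
      ‖(-1 + Complex.I * l : ℂ)‖ * (4 * C) := by
  have h1 : ∀ t ∈ Ioc 1 x, ‖(-1 + Complex.I * l) * ((t⁻¹ : ℝ) : ℂ) * fe l t * ((Chebyshev.theta t - t : ℝ) : ℂ)‖ ≤
      ‖(-1 + Complex.I * l : ℂ)‖ * (C * t ^ (-(5 / 4) : ℝ)) := by
    intro t ht
    have ht0 : 0 < t := by linarith [ht.1]
    rw [norm_mul, norm_mul, norm_mul, fe_norm l ht0, Complex.norm_real, Complex.norm_real,
      Real.norm_of_nonneg (by positivity : 0 ≤ t⁻¹), Real.norm_eq_abs]
    have h2 := h t ht.1.le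
    have e1 : t ^ (-(5 / 4) : ℝ) = t⁻¹ * t⁻¹ * t ^ (3 / 4 : ℝ) := by
      rw [← Real.rpow_neg_one, ← Real.rpow_add ht0, ← Real.rpow_add ht0]
      congr 1
      norm_num
    rw [e1]
    calc ‖(-1 + Complex.I * l : ℂ)‖ * t⁻¹ * t⁻¹ * |Chebyshev.theta t - t|
        ≤ ‖(-1 + Complex.I * l : ℂ)‖ * t⁻¹ * t⁻¹ * (C * t ^ (3 / 4 : ℝ)) :=
          mul_le_mul_of_nonneg_left h2 (by positivity)
      _ = _ := by ring
  have h2 : IntegrableOn (fun t : ℝ => t ^ (-(5 / 4) : ℝ)) (Ioi 1) :=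
    integrableOn_Ioi_rpow_of_lt (by norm_num) one_pos
  have h3 : ∫ t in Ioi (1:ℝ), t ^ (-(5 / 4) : ℝ) = 4 := by
    rw [integral_Ioi_rpow_of_lt (by norm_num) one_pos]
    norm_num
  calc ‖∫ t in Ioc 1 x, (-1 + Complex.I * l) * ((t⁻¹ : ℝ) : ℂ) * fe l t * ((Chebyshev.theta t - t : ℝ) : ℂ)‖
      ≤ ∫ t in Ioc 1 x, ‖(-1 + Complex.I * l : ℂ)‖ * (C * t ^ (-(5 / 4) : ℝ)) := by
        refine norm_integral_le_of_norm_le ?_ ((ae_restrict_mem measurableSet_Ioc).mono fun t ht => h1 t ht)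
        exact ((h2.mono_set Ioc_subset_Ioi_self).const_mul C).const_mul _
    _ = ‖(-1 + Complex.I * l : ℂ)‖ * (C * ∫ t in Ioc 1 x, t ^ (-(5 / 4) : ℝ)) := by
        rw [integral_const_mul, integral_const_mul]
    _ ≤ ‖(-1 + Complex.I * l : ℂ)‖ * (C * 4) := by
        refine mul_le_mul_of_nonneg_left (mul_le_mul_of_nonneg_left ?_ hC.le) (norm_nonneg _)
        refine le_trans (setIntegral_mono_set h2 ?_ (Ioc_subset_Ioi_self.eventuallyLE)) h3.le
        exact (ae_restrict_mem measurableSet_Ioi).mono fun t ht => by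
          have : (0:ℝ) < t := by linarith [mem_Ioi.1 ht]
          positivity
    _ = _ := by ring

theorem PC_ex {C : ℝ} (hC : 0 < C) (h : PNTb C) (l : ℝ) :
    Tendsto (PC (ex l)) atTop (𝓝 (if l = 0 then 1 else 0)) := by
  have h0 : Tendsto (fun x : ℝ => (∫ v in (0:ℝ)..(Real.log x), ex l v) / (Real.log x : ℂ)) atTop
      (𝓝 (if l = 0 then 1 else 0)) := (mean_ex l).comp Real.tendsto_log_atTop
  have h1 : Tendsto (fun x : ℝ => -(-1 + Complex.I * l) *
      ((∫ v in (0:ℝ)..(Real.log x), ex l v) / (Real.log x : ℂ))) atTop (𝓝 (if l = 0 then 1 else 0)) := by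
    have h2 := h0.const_mul (-(-1 + Complex.I * l))
    by_cases hl : l = 0
    · rw [if_pos hl] at h2 ⊢
      rw [hl] at h2
      simpa [hl] using h2
    · rw [if_neg hl] at h2 ⊢
      simpa using h2
  have h2 : Tendsto (fun x : ℝ => PC (ex l) x - -(-1 + Complex.I * l) *
      ((∫ v in (0:ℝ)..(Real.log x), ex l v) / (Real.log x : ℂ))) atTop (𝓝 0) := by
    rw [tendsto_zero_iff_norm_tendsto_zero]
    have h3 : Tendsto (fun x : ℝ => (1 + C + ‖(-1 + Complex.I * l : ℂ)‖ * (4 * C)) / Real.log x) atTop (𝓝 0) :=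
      tendsto_const_nhds.div_atTop Real.tendsto_log_atTop
    refine squeeze_zero' (Eventually.of_forall fun x => norm_nonneg _) ?_ h3
    filter_upwards [eventually_gt_atTop (1:ℝ)] with x hx
    have hl : 0 < Real.log x := Real.log_pos hx
    have hl' : (Real.log x : ℂ) ≠ 0 := by exact_mod_cast hl.ne'
    unfold PC
    rw [sum_ex l hx.le]
    have e1 : (fe l x * (Chebyshev.theta x : ℂ) - (-1 + Complex.I * l) * (∫ v in (0:ℝ)..(Real.log x), ex l v) -
        ∫ t in Ioc 1 x, (-1 + Complex.I * l) * ((t⁻¹ : ℝ) : ℂ) * fe l t * ((Chebyshev.theta t - t : ℝ) : ℂ)) /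
          (Real.log x : ℂ) - -(-1 + Complex.I * l) * ((∫ v in (0:ℝ)..(Real.log x), ex l v) / (Real.log x : ℂ)) =
        (fe l x * (Chebyshev.theta x : ℂ) -
        ∫ t in Ioc 1 x, (-1 + Complex.I * l) * ((t⁻¹ : ℝ) : ℂ) * fe l t * ((Chebyshev.theta t - t : ℝ) : ℂ)) /
          (Real.log x : ℂ) := by
      field_simp
      ring
    rw [e1, norm_div, Complex.norm_real, Real.norm_of_nonneg hl.le]
    refine div_le_div_of_nonneg_right ?_ hl.le
    refine (norm_sub_le _ _).trans (add_le_add ?_ (err_bound hC h l hx.le))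
    have hx0 : 0 < x := by linarith
    rw [norm_mul, fe_norm l hx0, Complex.norm_real, Real.norm_of_nonneg (Chebyshev.theta_nonneg x),
      inv_mul_le_iff₀ hx0]
    have h4 := (abs_le.1 (h x hx.le)).2
    have h5 : x ^ (3 / 4 : ℝ) ≤ x := by
      calc x ^ (3 / 4 : ℝ) ≤ x ^ (1 : ℝ) := Real.rpow_le_rpow_of_exponent_le hx.le (by norm_num)
        _ = x := Real.rpow_one x
    nlinarith
  have h3 := h2.add h1
  simp only [sub_add_cancel, zero_add] at h3
  exact h3

theorem PC_TPA {C : ℝ} (hC : 0 < C) (h : PNTb C) {g : ℝ → ℂ} (hg : g ∈ TPA) :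
    Tendsto (fun x : ℝ => PC g x - (∫ v in (0:ℝ)..(Real.log x), g v) / (Real.log x : ℂ)) atTop (𝓝 0) := by
  have h1 : g ∈ Submodule.span ℂ (Set.range ex) := by
    have h2 : g ∈ Subalgebra.toSubmodule (Algebra.adjoin ℂ (exM : Set (ℝ → ℂ))) := hg
    rw [Algebra.adjoin_eq_span, Submonoid.closure_eq] at h2
    exact h2
  suffices h2 : Continuous g ∧
      Tendsto (fun x : ℝ => PC g x - (∫ v in (0:ℝ)..(Real.log x), g v) / (Real.log x : ℂ)) atTop (𝓝 0) from h2.2
  induction h1 using Submodule.span_induction with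
  | mem y hy =>
    obtain ⟨l, rfl⟩ := hy
    refine ⟨ex_cont l, ?_⟩
    have h2 := (PC_ex hC h l).sub ((mean_ex l).comp Real.tendsto_log_atTop)
    rw [sub_self] at h2
    exact h2
  | zero =>
    refine ⟨continuous_zero, ?_⟩
    refine tendsto_const_nhds.congr fun x => ?_
    simp [PC]
  | add y z _ _ hy hz =>
    have hy' := hy (by
      have : y ∈ Submodule.span ℂ (Set.range ex) := by assumption
      have h3 : y ∈ Subalgebra.toSubmodule (Algebra.adjoin ℂ (exM : Set (ℝ → ℂ))) := by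
        rw [Algebra.adjoin_eq_span, Submonoid.closure_eq]
        exact this
      exact h3)
    have hz' := hz (by
      have : z ∈ Submodule.span ℂ (Set.range ex) := by assumption
      have h3 : z ∈ Subalgebra.toSubmodule (Algebra.adjoin ℂ (exM : Set (ℝ → ℂ))) := by
        rw [Algebra.adjoin_eq_span, Submonoid.closure_eq]
        exact this
      exact h3)
    refine ⟨hy'.1.add hz'.1, ?_⟩
    have h4 := hy'.2.add hz'.2
    rw [add_zero] at h4
    refine h4.congr fun x => ?_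
    unfold PC
    simp only [Pi.add_apply, mul_add, Finset.sum_add_distrib]
    rw [intervalIntegral.integral_add (hy'.1.intervalIntegrable _ _) (hz'.1.intervalIntegrable _ _)]
    ring
  | smul a y _ hy =>
    have hy' := hy (by
      have : y ∈ Submodule.span ℂ (Set.range ex) := by assumption
      have h3 : y ∈ Subalgebra.toSubmodule (Algebra.adjoin ℂ (exM : Set (ℝ → ℂ))) := by
        rw [Algebra.adjoin_eq_span, Submonoid.closure_eq]
        exact this
      exact h3)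
    refine ⟨hy'.1.const_smul a, ?_⟩
    have h4 := hy'.2.const_mul a
    rw [mul_zero] at h4
    refine h4.congr fun x => ?_
    unfold PC
    simp only [Pi.smul_apply, smul_eq_mul]
    rw [intervalIntegral.integral_const_mul]
    have e1 : ∀ p : ℕ, ((Real.log p / p : ℝ) : ℂ) * (a * y (Real.log p)) =
        a * (((Real.log p / p : ℝ) : ℂ) * y (Real.log p)) := fun p => by ring
    simp only [e1, ← Finset.mul_sum]
    ring

lemma PC_real (Q : ℝ → ℝ) (x : ℝ) : PC (fun v => ((Q v : ℝ) : ℂ)) x = ((PR Q x : ℝ) : ℂ) := by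
  unfold PC PR
  push_cast
  rfl

theorem PR_TPA {C : ℝ} (hC : 0 < C) (h : PNTb C) {Q : ℝ → ℝ} (hQ : (fun v => ((Q v : ℝ) : ℂ)) ∈ TPA) :
    Tendsto (fun x : ℝ => PR Q x - mn Q (Real.log x)) atTop (𝓝 0) := by
  have h1 := PC_TPA hC h hQ
  have h2 := (Complex.continuous_re.tendsto _).comp h1
  rw [Complex.zero_re] at h2
  refine h2.congr fun x => ?_
  simp only [Function.comp, PC_real]
  rw [intervalIntegral.integral_ofReal, ← Complex.ofReal_div, ← Complex.ofReal_sub, Complex.ofReal_re]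
  rfl

lemma one_TPA : (fun v : ℝ => (((fun _ : ℝ => (1:ℝ)) v : ℝ) : ℂ)) ∈ TPA := by
  have : (fun v : ℝ => (((fun _ : ℝ => (1:ℝ)) v : ℝ) : ℂ)) = (1 : ℝ → ℂ) := by
    funext v
    simp
  rw [this]
  exact Subalgebra.one_mem _

theorem PR_one {C : ℝ} (hC : 0 < C) (h : PNTb C) : Tendsto (PR fun _ => 1) atTop (𝓝 1) := by
  have h1 := PR_TPA hC h one_TPA
  have h2 : Tendsto (fun x : ℝ => mn (fun _ : ℝ => (1:ℝ)) (Real.log x)) atTop (𝓝 1) := by
    refine tendsto_const_nhds.congr' ?_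
    filter_upwards [eventually_gt_atTop (1:ℝ)] with x hx
    rw [mn_const 1 (Real.log_pos hx)]
  have h3 := h1.add h2
  simp only [sub_add_cancel, zero_add] at h3
  exact h3

lemma PR_abs_le {f g k : ℝ → ℝ} {x : ℝ} (hx : 1 < x) (h : ∀ v, |f v - g v| ≤ k v) :
    |PR f x - PR g x| ≤ PR k x := by
  have hl : 0 < Real.log x := Real.log_pos hx
  unfold PR
  rw [← sub_div, abs_div, abs_of_pos hl, ← Finset.sum_sub_distrib]
  refine div_le_div_of_nonneg_right ((Finset.abs_sum_le_sum_abs _ _).trans ?_) hl.le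
  refine Finset.sum_le_sum fun p _ => ?_
  have h1 : 0 ≤ Real.log (p : ℝ) / p := div_nonneg (Real.log_natCast_nonneg p) (Nat.cast_nonneg p)
  rw [← mul_sub, abs_mul, abs_of_nonneg h1]
  exact mul_le_mul_of_nonneg_left (h _) h1

lemma PR_const_mul (c : ℝ) (g : ℝ → ℝ) (x : ℝ) : PR (fun v => c * g v) x = c * PR g x := by
  unfold PR
  rw [← mul_div_assoc, Finset.mul_sum]
  congr 1
  refine Finset.sum_congr rfl fun p _ => ?_
  ring

/-- continuous functions of a real trigonometric polynomial -/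
theorem PR_comp {C : ℝ} (hC : 0 < C) (h : PNTb C) {Q : ℝ → ℝ} (hQ : (fun v => ((Q v : ℝ) : ℂ)) ∈ TPA)
    (hc : Continuous Q) {B : ℝ} (hB : ∀ v, |Q v| ≤ B) {φ : ℝ → ℝ} (hφ : Continuous φ) :
    Tendsto (fun x : ℝ => PR (fun v => φ (Q v)) x - mn (fun v => φ (Q v)) (Real.log x)) atTop (𝓝 0) := by
  rw [Metric.tendsto_nhds]
  intro ε hε
  obtain ⟨p, hp⟩ := exists_polynomial_near_of_continuousOn (-B) B φ hφ.continuousOn (ε / 8) (by positivity)
  have h1 := PR_TPA hC h (poly_mem hQ p)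
  have h2 := Metric.tendsto_nhds.1 h1 (ε / 8) (by positivity)
  have h3 := Metric.tendsto_nhds.1 (PR_one hC h) 1 one_pos
  filter_upwards [h2, h3, eventually_gt_atTop (1:ℝ)] with x h4 h5 hx
  rw [Real.dist_eq, sub_zero] at h4 ⊢
  rw [Real.dist_eq] at h5
  have hl : 0 < Real.log x := Real.log_pos hx
  have h6 : |PR (fun v => φ (Q v)) x - PR (fun v => p.eval (Q v)) x| ≤ PR (fun _ => ε / 8 * 1) x :=
    PR_abs_le hx fun v => by
      rw [mul_one, abs_sub_comm]
      exact (hp _ (abs_le.1 (hB v))).le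
  rw [PR_const_mul] at h6
  have h7 : |mn (fun v => φ (Q v)) (Real.log x) - mn (fun v => p.eval (Q v)) (Real.log x)| ≤ ε / 8 := by
    have h8 := abs_mn_sub_le (g := fun v => φ (Q v)) (h := fun v => p.eval (Q v)) (k := fun _ => ε / 8) hl
      ((hφ.comp hc).intervalIntegrable _ _) ((p.continuous.comp hc).intervalIntegrable _ _)
      (continuous_const.intervalIntegrable _ _) (fun v _ => by
        rw [abs_sub_comm]
        exact (hp _ (abs_le.1 (hB v))).le)
    rwa [mn_const _ hl] at h8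
  have h8 : PR (fun _ => 1) x ≤ 2 := by
    have := (abs_lt.1 h5).2
    linarith
  have h9 : ε / 8 * PR (fun _ => 1) x ≤ ε / 4 := by nlinarith
  rw [abs_lt] at h4 ⊢
  rw [abs_le] at h6 h7
  constructor <;> linarith [h4.1, h4.2, h6.1, h6.2, h7.1, h7.2]

end

end Pool.Agent.E8helper68.WP
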