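import Pool.Agent.E8helper68.WP.WP2
import Pool.Agent.E8helper68.WP.WP6
import Pool.Agent.Helper923.PPS.BT

/-! From mean square approximation on average to mean square approximation at the primes. -/

set_option autoImplicit false

open MeasureTheory Filter Topology Set
open Pool.Agent.H295R2 (Mx abs_Mx_le)
open Pool.Agent.TH223.AP (ex ex_cont norm_ex TPA mn rt rt_cont trig trig_cont ft ft_LB LB)

namespace Pool.Agent.E8helper68.WP

noncomputable section

/-- `M(p)/√p` -/
def gp (p : ℕ) : ℝ := Mx p / √p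

/-- the mean over the primes `p ≤ x` with weights `log p / p` -/
def PG (F : ℕ → ℝ) (x : ℝ) : ℝ :=
  (∑ p ∈ (Finset.Icc 1 ⌊x⌋₊).filter Nat.Prime, Real.log p / p * F p) / Real.log x

lemma PR_eq_PG (g : ℝ → ℝ) (x : ℝ) : PR g x = PG (fun p => g (Real.log p)) x := rfl

lemma ft_eq (v : ℝ) : ft v = Mx (Real.exp v) * Real.exp (-(v / 2)) := rfl

lemma window_diff {p : ℕ} (hp : 1 ≤ p) {ε v : ℝ} (h0 : 0 < ε) (h1 : ε ≤ 1) (hv1 : Real.log p < v)
    (hv2 : v ≤ Real.log p + ε / √p) : |gp p - ft v| ≤ 4 * ε := by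
  have hp0 : (0:ℝ) < p := by exact_mod_cast hp
  have hp1 : (1:ℝ) ≤ p := by exact_mod_cast hp
  have hs : 0 < √(p:ℝ) := Real.sqrt_pos.2 hp0
  have hs1 : 1 ≤ √(p:ℝ) := Real.one_le_sqrt.2 hp1
  have hss : √(p:ℝ) * √(p:ℝ) = p := Real.mul_self_sqrt hp0.le
  obtain ⟨w, hw⟩ : ∃ w : ℝ, w = ε / √p := ⟨_, rfl⟩
  have hw0 : 0 < w := by rw [hw]; positivity
  have hw1 : w ≤ 1 := by
    rw [hw, div_le_one hs]
    linarith
  have hwp : w * p = ε * √p := by
    rw [hw, div_mul_eq_mul_div, div_eq_iff hs.ne', mul_assoc, hss]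
  rw [← hw] at hv2
  have hev1 : (p:ℝ) < Real.exp v := by
    rw [← Real.exp_log hp0]
    exact Real.exp_lt_exp.2 hv1
  have hev2 : Real.exp v ≤ p * Real.exp w := by
    calc Real.exp v ≤ Real.exp (Real.log p + w) := Real.exp_le_exp.2 hv2
      _ = p * Real.exp w := by rw [Real.exp_add, Real.exp_log hp0]
  have hew := exp_sub_le hw0.le hw1
  have hd : Real.exp v - p ≤ 2 * (ε * √p) := by nlinarith
  have h3p : Real.exp v ≤ 3 * p := by
    have : Real.exp w ≤ 3 := by linarith
    nlinarith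
  have hfl : p ≤ ⌊Real.exp v⌋₊ := Nat.le_floor hev1.le
  have hM1 : |Mx (Real.exp v) - Mx p| ≤ 2 * (ε * √p) := by
    rw [Mx_floor (Real.exp v)]
    refine (Mx_nat_sub hfl).trans ?_
    have := Nat.floor_le (Real.exp_pos v).le
    linarith
  obtain ⟨E, hE⟩ : ∃ E : ℝ, E = (√(p:ℝ))⁻¹ := ⟨_, rfl⟩
  have hE0 : 0 < E := by rw [hE]; positivity
  have hEs : E = Real.exp (-(Real.log p / 2)) := by
    rw [hE, Real.sqrt_eq_rpow, ← Real.rpow_neg hp0.le, Real.rpow_def_of_pos hp0]
    congr 1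
    ring
  have hE1 : Real.exp (-(v / 2)) ≤ E := by
    rw [hEs]
    exact Real.exp_le_exp.2 (by linarith)
  have hE2 : E - Real.exp (-(v / 2)) ≤ E * (w / 2) := by
    have e1 : Real.exp (-(v / 2)) = E * Real.exp (-((v - Real.log p) / 2)) := by
      rw [hEs, ← Real.exp_add]
      congr 1
      ring
    rw [e1]
    have h3 := Real.add_one_le_exp (-((v - Real.log p) / 2))
    have h4 : 1 - Real.exp (-((v - Real.log p) / 2)) ≤ w / 2 := by linarith
    nlinarith
  have hMb := abs_Mx_le (Real.exp_pos v).le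
  have e2 : gp p - ft v = (Mx p - Mx (Real.exp v)) * E + Mx (Real.exp v) * (E - Real.exp (-(v / 2))) := by
    rw [ft_eq, gp, hE]
    ring
  rw [e2]
  refine (abs_add_le _ _).trans ?_
  rw [abs_mul, abs_mul, abs_of_pos hE0, abs_of_nonneg (sub_nonneg.2 hE1), abs_sub_comm]
  have h5 : |Mx (Real.exp v) - Mx p| * E ≤ 2 * ε := by
    calc |Mx (Real.exp v) - Mx p| * E ≤ 2 * (ε * √p) * E := mul_le_mul_of_nonneg_right hM1 hE0.le
      _ = 2 * ε * (√p * E) := by ring
      _ = 2 * ε := by rw [hE, mul_inv_cancel₀ hs.ne', mul_one]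
  have h6 : |Mx (Real.exp v)| * (E - Real.exp (-(v / 2))) ≤ 3 / 2 * ε := by
    calc |Mx (Real.exp v)| * (E - Real.exp (-(v / 2))) ≤ (3 * p) * (E * (w / 2)) :=
          mul_le_mul (hMb.trans h3p) hE2 (sub_nonneg.2 hE1) (by positivity)
      _ = 3 / 2 * (w * p) * E := by ring
      _ = 3 / 2 * ε * (√p * E) := by rw [hwp]; ring
      _ = 3 / 2 * ε := by rw [hE, mul_inv_cancel₀ hs.ne', mul_one]
  linarith

lemma ex_lip (l a b : ℝ) : ‖ex l a - ex l b‖ ≤ |l| * |a - b| := by
  have e1 : ex l a - ex l b = ex l b * (Complex.exp (Complex.I * ((l * (a - b) : ℝ) : ℂ)) - 1) := by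
    unfold ex
    rw [mul_sub, mul_one, ← Complex.exp_add]
    congr 2
    push_cast
    ring
  rw [e1, norm_mul, norm_ex, one_mul]
  have h1 := Real.norm_exp_I_mul_ofReal_sub_one_le (x := l * (a - b))
  rwa [Real.norm_eq_abs, abs_mul] at h1

lemma rt_lip (K : Finset ℝ) (a : ℝ → ℂ) : ∃ L : ℝ, 0 ≤ L ∧ ∀ s t : ℝ, |rt K a s - rt K a t| ≤ L * |s - t| := by
  refine ⟨∑ l ∈ K, ‖a l‖ * |l|, Finset.sum_nonneg fun l _ => by positivity, fun s t => ?_⟩
  have h1 : |rt K a s - rt K a t| ≤ ‖trig K a s - trig K a t‖ := by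
    unfold rt
    rw [← Complex.sub_re]
    exact Complex.abs_re_le_norm _
  refine h1.trans ?_
  unfold trig
  rw [← Finset.sum_sub_distrib, Finset.sum_mul]
  refine norm_sum_le_of_le _ fun l _ => ?_
  rw [← mul_sub, norm_mul, mul_assoc (‖a l‖)]
  exact mul_le_mul_of_nonneg_left (ex_lip l s t) (norm_nonneg (a l))

/-- the counting function of the windows -/
def HH (ε : ℝ) (N : ℕ) (v : ℝ) : ℝ := ∑ p ∈ (Finset.Icc 1 N).filter Nat.Prime,
  (2 * Real.log p / (ε * √p)) * (Set.Ioc (Real.log p) (Real.log p + ε / √p)).indicator 1 v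

lemma HH_crude {ε : ℝ} (h0 : 0 < ε) (N : ℕ) {v v0 : ℝ} (hv : v ≤ v0) (hv0 : 0 ≤ v0) :
    HH ε N v ≤ Real.exp v0 * (2 * v0 / ε) := by
  unfold HH
  have h1 : ∀ p ∈ (Finset.Icc 1 N).filter Nat.Prime,
      (2 * Real.log p / (ε * √p)) * (Set.Ioc (Real.log p) (Real.log p + ε / √p)).indicator 1 v ≤
        if (p:ℝ) ≤ Real.exp v0 then 2 * v0 / ε else 0 := by
    intro p hp
    rw [Finset.mem_filter, Finset.mem_Icc] at hp
    have hp1 : (1:ℝ) ≤ p := by exact_mod_cast hp.1.1
    have hp0 : (0:ℝ) < p := by linarith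
    have hs1 : 1 ≤ √(p:ℝ) := Real.one_le_sqrt.2 hp1
    by_cases hm : v ∈ Set.Ioc (Real.log p) (Real.log p + ε / √p)
    · rw [Set.indicator_of_mem hm, Pi.one_apply, mul_one]
      have h2 : Real.log p ≤ v0 := hm.1.le.trans hv
      have h3 : (p:ℝ) ≤ Real.exp v0 := by
        rw [← Real.exp_log hp0]
        exact Real.exp_le_exp.2 h2
      rw [if_pos h3]
      refine div_le_div₀ (by positivity) (by linarith) h0 ?_
      nlinarith
    · rw [Set.indicator_of_notMem hm, mul_zero]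
      split_ifs
      · positivity
      · exact le_rfl
  refine (Finset.sum_le_sum h1).trans ?_
  rw [← Finset.sum_filter, Finset.sum_const, nsmul_eq_mul]
  refine mul_le_mul_of_nonneg_right ?_ (by positivity)
  have h2 : ((((Finset.Icc 1 N).filter Nat.Prime).filter fun p : ℕ => (p:ℝ) ≤ Real.exp v0).card) ≤ ⌊Real.exp v0⌋₊ := by
    calc _ ≤ (Finset.Icc 1 ⌊Real.exp v0⌋₊).card := by
          refine Finset.card_le_card fun p hp => ?_
          rw [Finset.mem_filter, Finset.mem_filter, Finset.mem_Icc] at hp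
          rw [Finset.mem_Icc]
          exact ⟨hp.1.1.1, Nat.le_floor hp.2⟩
      _ = _ := by simp
  calc ((((Finset.Icc 1 N).filter Nat.Prime).filter fun p : ℕ => (p:ℝ) ≤ Real.exp v0).card : ℝ)
      ≤ (⌊Real.exp v0⌋₊ : ℝ) := by exact_mod_cast h2
    _ ≤ _ := Nat.floor_le (Real.exp_pos _).le

/-- Brun-Titchmarsh bounds the number of windows over a point -/
theorem HH_bound : ∃ C1 : ℝ, 0 < C1 ∧ ∀ ε : ℝ, 0 < ε → ε ≤ 1 → ∃ v0 : ℝ, 0 ≤ v0 ∧ ∀ v : ℝ, v0 ≤ v → ∀ N : ℕ,
    HH ε N v ≤ C1 := by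
  obtain ⟨C, hC, hBT⟩ := Pool.Agent.Helper923.PPS.brun_titchmarsh
  refine ⟨48 * C, by positivity, fun ε h0 h1 => ⟨max 1 (4 * Real.log (2 / ε)), by positivity, fun v hv N => ?_⟩⟩
  have hv1 : 1 ≤ v := (le_max_left _ _).trans hv
  have hv2 : 4 * Real.log (2 / ε) ≤ v := (le_max_right _ _).trans hv
  have hv0 : 0 < v := by linarith
  obtain ⟨E, hE⟩ : ∃ E : ℝ, E = Real.exp (v / 4) := ⟨_, rfl⟩
  have hE2 : E ^ 2 = Real.exp (v / 2) := by
    rw [hE, ← Real.exp_nat_mul]
    congr 1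
    push_cast
    ring
  have hE4 : E ^ 2 * E ^ 2 = Real.exp v := by
    rw [hE2, ← Real.exp_add]
    congr 1
    ring
  have hEb : 2 / ε ≤ E := by
    rw [hE, ← Real.exp_log (by positivity : 0 < 2 / ε)]
    exact Real.exp_le_exp.2 (by linarith)
  have hεE : 2 ≤ ε * E := by
    rw [div_le_iff₀ h0] at hEb
    linarith
  have hE1 : 1 ≤ E := by nlinarith
  obtain ⟨y, hy⟩ : ∃ y : ℝ, y = 2 * ε * E ^ 2 := ⟨_, rfl⟩
  have hyE : 4 * E ≤ y := by rw [hy]; nlinarith
  obtain ⟨a, ha⟩ : ∃ a : ℕ, a = ⌈Real.exp v - y⌉₊ := ⟨_, rfl⟩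
  obtain ⟨n, hn⟩ : ∃ n : ℕ, n = ⌊y⌋₊ + 2 := ⟨_, rfl⟩
  have hn1 : y + 1 < n := by
    rw [hn]
    push_cast
    have := Nat.lt_floor_add_one y
    linarith
  have hn2 : (n:ℝ) ≤ 3 / 2 * y := by
    rw [hn]
    push_cast
    have := Nat.floor_le (by linarith : 0 ≤ y)
    linarith
  have hbt := hBT a 1 n (by omega) (Or.inl rfl)
  have hlogn : v / 4 ≤ Real.log n := by
    rw [Real.le_log_iff_exp_le (by linarith), ← hE]
    linarith
  -- the weight of one term
  have hterm : ∀ p ∈ (Finset.Icc 1 N).filter Nat.Prime,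
      (2 * Real.log p / (ε * √p)) * (Set.Ioc (Real.log p) (Real.log p + ε / √p)).indicator 1 v ≤
        if a ≤ p ∧ p < a + n then 4 * v / (ε * E ^ 2) else 0 := by
    intro p hp
    rw [Finset.mem_filter, Finset.mem_Icc] at hp
    have hp1 : (1:ℝ) ≤ p := by exact_mod_cast hp.1.1
    have hp0 : (0:ℝ) < p := by linarith
    have hs1 : 1 ≤ √(p:ℝ) := Real.one_le_sqrt.2 hp1
    have hs0 : 0 < √(p:ℝ) := by linarith
    have hss : √(p:ℝ) * √(p:ℝ) = p := Real.mul_self_sqrt hp0.le
    by_cases hm : v ∈ Set.Ioc (Real.log p) (Real.log p + ε / √p)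
    · rw [Set.indicator_of_mem hm, Pi.one_apply, mul_one]
      obtain ⟨w, hw⟩ : ∃ w : ℝ, w = ε / √p := ⟨_, rfl⟩
      have hw0 : 0 < w := by rw [hw]; positivity
      have hw1 : w ≤ 1 := by
        rw [hw, div_le_one hs0]
        linarith
      have hwp : w * √p = ε := by rw [hw, div_mul_cancel₀ _ hs0.ne']
      obtain ⟨hm1, hm2⟩ := hm
      rw [← hw] at hm2
      have hev1 : (p:ℝ) < Real.exp v := by
        rw [← Real.exp_log hp0]
        exact Real.exp_lt_exp.2 hm1
      have hev2 : Real.exp v ≤ p * Real.exp w := by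
        calc Real.exp v ≤ Real.exp (Real.log p + w) := Real.exp_le_exp.2 hm2
          _ = p * Real.exp w := by rw [Real.exp_add, Real.exp_log hp0]
      have hew := exp_sub_le hw0.le hw1
      have h3p : Real.exp v ≤ 3 * p := by
        have : Real.exp w ≤ 3 := by linarith
        nlinarith
      have hsE : √(p:ℝ) ≤ E ^ 2 := by
        rw [hE2]
        rw [Real.sqrt_le_left (Real.exp_pos _).le, ← hE2]
        calc (p:ℝ) ≤ Real.exp v := hev1.le
          _ = (E ^ 2) ^ 2 := by rw [← hE4]; ring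
      have hEs : E ^ 2 ≤ 2 * √(p:ℝ) := by
        by_contra hcon
        push Not at hcon
        have h5 : (2 * √(p:ℝ)) * (2 * √(p:ℝ)) < E ^ 2 * E ^ 2 :=
          mul_lt_mul'' hcon hcon (by positivity) (by positivity)
        rw [hE4] at h5
        nlinarith
      have hd : Real.exp v - p ≤ y := by
        have h5 : Real.exp v - p ≤ 2 * (w * p) := by nlinarith
        have h6 : w * p = ε * √p := by
          calc w * p = w * (√(p:ℝ) * √(p:ℝ)) := by rw [hss]
            _ = ε * √p := by rw [← mul_assoc, hwp]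
        rw [h6] at h5
        rw [hy]
        nlinarith
      have hap : a ≤ p := by
        rw [ha, Nat.ceil_le]
        linarith
      have hpn : p < a + n := by
        have h5 : Real.exp v - y ≤ a := by rw [ha]; exact Nat.le_ceil _
        have h6 : (p:ℝ) < ((a + n : ℕ) : ℝ) := by
          push_cast
          linarith
        exact_mod_cast h6
      rw [if_pos ⟨hap, hpn⟩]
      have hlp : Real.log p ≤ v := hm1.le
      rw [div_le_div_iff₀ (by positivity) (by positivity)]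
      have hlp0 : 0 ≤ Real.log (p:ℝ) := Real.log_nonneg hp1
      have h7 : Real.log p * E ^ 2 ≤ v * (2 * √p) := mul_le_mul hlp hEs (by positivity) hv0.le
      nlinarith
    · rw [Set.indicator_of_notMem hm, mul_zero]
      split_ifs
      · positivity
      · exact le_rfl
  unfold HH
  refine (Finset.sum_le_sum hterm).trans ?_
  rw [← Finset.sum_filter, Finset.sum_const, nsmul_eq_mul]
  have hcard : ((((Finset.Icc 1 N).filter Nat.Prime).filter fun p : ℕ => a ≤ p ∧ p < a + n).card : ℝ) ≤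
      C * n / Real.log n := by
    refine le_trans ?_ hbt
    have h5 : (((Finset.Icc 1 N).filter Nat.Prime).filter fun p : ℕ => a ≤ p ∧ p < a + n).card ≤
        ((Finset.range n).filter (fun k => (a + k * 1).Prime)).card := by
      refine Finset.card_le_card_of_injOn (fun p => p - a) (fun p hp => ?_) (fun p hp q hq hpq => ?_)
      · rw [Finset.mem_coe, Finset.mem_filter, Finset.mem_filter] at hp
        rw [Finset.mem_coe, Finset.mem_filter, Finset.mem_range]
        have h8 : p - a < n := by omega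
        refine ⟨h8, ?_⟩
        have h9 : a + (p - a) * 1 = p := by omega
        show (a + (p - a) * 1).Prime
        rw [h9]
        exact hp.1.2
      · rw [Finset.mem_coe, Finset.mem_filter] at hp hq
        simp only at hpq
        omega
    exact_mod_cast h5
  have hlog0 : 0 < Real.log n := by linarith [div_pos hv0 (by norm_num : (0:ℝ) < 4)]
  have h6 : C * n / Real.log n ≤ C * (3 / 2 * y) / (v / 4) := by
    refine div_le_div₀ (mul_nonneg (by linarith) (by linarith)) ?_ (by positivity) hlogn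
    exact mul_le_mul_of_nonneg_left hn2 (by linarith)
  refine (mul_le_mul_of_nonneg_right (hcard.trans h6) (by positivity)).trans (le_of_eq ?_)
  rw [hy]
  have : E ≠ 0 := by positivity
  field_simp
  norm_num

end

end Pool.Agent.E8helper68.WP
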