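import Pool.Agent.E8helper68.WP.WP7

/-! Transfer of mean square approximations to the primes. -/

set_option autoImplicit false

open MeasureTheory Filter Topology Set
open Pool.Agent.H295R2 (Mx abs_Mx_le)
open Pool.Agent.TH223.AP (ex ex_cont norm_ex TPA mn rt rt_cont trig trig_cont ft ft_LB LB)

namespace Pool.Agent.E8helper68.WP

noncomputable section

lemma w_nonneg (p : ℕ) : 0 ≤ Real.log (p : ℝ) / p :=
  div_nonneg (Real.log_natCast_nonneg p) (Nat.cast_nonneg p)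

lemma PG_mono {F G : ℕ → ℝ} {x : ℝ} (hx : 1 < x) (h : ∀ p : ℕ, p.Prime → F p ≤ G p) : PG F x ≤ PG G x := by
  unfold PG
  refine div_le_div_of_nonneg_right (Finset.sum_le_sum fun p hp => ?_) (Real.log_pos hx).le
  exact mul_le_mul_of_nonneg_left (h p (Finset.mem_filter.1 hp).2) (w_nonneg p)

lemma PG_sub (F G : ℕ → ℝ) (x : ℝ) : PG F x - PG G x = PG (fun p => F p - G p) x := by
  unfold PG
  rw [← sub_div, ← Finset.sum_sub_distrib]
  simp only [mul_sub]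

lemma PG_abs (F : ℕ → ℝ) {x : ℝ} (hx : 1 < x) : |PG F x| ≤ PG (fun p => |F p|) x := by
  have hl : 0 < Real.log x := Real.log_pos hx
  unfold PG
  rw [abs_div, abs_of_pos hl]
  refine div_le_div_of_nonneg_right ((Finset.abs_sum_le_sum_abs _ _).trans ?_) hl.le
  refine Finset.sum_le_sum fun p _ => ?_
  rw [abs_mul, abs_of_nonneg (w_nonneg p)]

lemma PG_abs_le {F G H : ℕ → ℝ} {x : ℝ} (hx : 1 < x) (h : ∀ p : ℕ, p.Prime → |F p - G p| ≤ H p) :
    |PG F x - PG G x| ≤ PG H x := by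
  rw [PG_sub]
  exact (PG_abs _ hx).trans (PG_mono hx h)

lemma PG_add (F G : ℕ → ℝ) (x : ℝ) : PG (fun p => F p + G p) x = PG F x + PG G x := by
  unfold PG
  simp only [mul_add, Finset.sum_add_distrib, add_div]

lemma PG_const_mul (c : ℝ) (F : ℕ → ℝ) (x : ℝ) : PG (fun p => c * F p) x = c * PG F x := by
  unfold PG
  rw [← mul_div_assoc, Finset.mul_sum]
  congr 1
  refine Finset.sum_congr rfl fun p _ => ?_
  ring

lemma sqI {D : ℝ → ℝ} (hD : LB D) {a b : ℝ} (ha : 0 ≤ a) (hb : a ≤ b) :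
    IntegrableOn (fun v => D v ^ 2) (Ioc a b) := by
  have h1 := hD.sq.ii (ha.trans hb)
  rw [intervalIntegrable_iff_integrableOn_Ioc_of_le (ha.trans hb)] at h1
  exact h1.mono_set (Ioc_subset_Ioc_left ha)

lemma prime_bound {P : ℝ → ℝ} (hP : Continuous P) {L : ℝ} (hL0 : 0 ≤ L)
    (hL : ∀ s t, |P s - P t| ≤ L * |s - t|) {ε : ℝ} (h0 : 0 < ε) (h1 : ε ≤ 1)
    {p : ℕ} (hp : p.Prime) :
    Real.log p / p * (gp p - P (Real.log p)) ^ 2 ≤
      (2 * Real.log p / (ε * √p)) * (∫ v in Ioc (Real.log p) (Real.log p + ε / √p), (ft v - P v) ^ 2) +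
        (64 * ε ^ 2 * (Real.log p / p) + 4 * L ^ 2 * ε ^ 2 * (Real.log p / p ^ 2)) := by
  have hp1 : (1:ℝ) ≤ p := by exact_mod_cast hp.one_lt.le
  have hp0 : (0:ℝ) < p := by linarith
  have hs1 : 1 ≤ √(p:ℝ) := Real.one_le_sqrt.2 hp1
  have hs0 : 0 < √(p:ℝ) := by linarith
  have hss : √(p:ℝ) * √(p:ℝ) = p := Real.mul_self_sqrt hp0.le
  have hlp0 : 0 ≤ Real.log (p:ℝ) := Real.log_nonneg hp1
  obtain ⟨w, hw⟩ : ∃ w : ℝ, w = ε / √p := ⟨_, rfl⟩
  have hw0 : 0 < w := by rw [hw]; positivity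
  have hwp : w * p = ε * √p := by
    rw [hw, div_mul_eq_mul_div, div_eq_iff hs0.ne', mul_assoc, hss]
  have hw2 : w ^ 2 = ε ^ 2 / p := by
    rw [hw, div_pow, Real.sq_sqrt hp0.le]
  rw [← hw]
  obtain ⟨X, hX⟩ : ∃ X : ℝ, X = gp p - P (Real.log p) := ⟨_, rfl⟩
  rw [← hX]
  have hD : LB (fun v => ft v - P v) := ft_LB.sub (LB.of_cont hP)
  have hI := sqI hD hlp0 (by linarith : Real.log (p:ℝ) ≤ Real.log p + w)
  have key : w * X ^ 2 ≤ 2 * (∫ v in Ioc (Real.log p) (Real.log p + w), (ft v - P v) ^ 2) +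
      w * (2 * (4 * ε + L * w) ^ 2) := by
    have e1 : ∀ c : ℝ, ∫ _v in Ioc (Real.log (p:ℝ)) (Real.log p + w), c = w * c := by
      intro c
      rw [setIntegral_const, Real.volume_real_Ioc_of_le (by linarith), smul_eq_mul]
      ring
    rw [← e1, ← e1 (2 * (4 * ε + L * w) ^ 2), ← integral_const_mul, ← integral_add (hI.const_mul 2)
      (integrableOn_const (by simp) )]
    refine setIntegral_mono_on (integrableOn_const (by simp)) ((hI.const_mul 2).add (integrableOn_const (by simp)))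
      measurableSet_Ioc fun v hv => ?_
    have h2 := window_diff hp.one_lt.le h0 h1 hv.1 (by rw [← hw]; exact hv.2)
    have h3 := hL v (Real.log p)
    have h4 : |v - Real.log (p:ℝ)| ≤ w := by
      rw [abs_of_nonneg (by linarith [hv.1])]
      linarith [hv.2]
    have h5 : |X| ≤ |ft v - P v| + (4 * ε + L * w) := by
      have e2 : X = (gp p - ft v) + (ft v - P v) + (P v - P (Real.log p)) := by
        rw [hX]
        ring
      rw [e2]
      refine (abs_add_three _ _ _).trans ?_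
      have h6 : L * |v - Real.log (p:ℝ)| ≤ L * w := mul_le_mul_of_nonneg_left h4 hL0
      linarith
    have h6 : 0 ≤ 4 * ε + L * w := by positivity
    calc X ^ 2 = |X| ^ 2 := (sq_abs X).symm
      _ ≤ (|ft v - P v| + (4 * ε + L * w)) ^ 2 := pow_le_pow_left₀ (abs_nonneg _) h5 2
      _ ≤ 2 * |ft v - P v| ^ 2 + 2 * (4 * ε + L * w) ^ 2 := by
        nlinarith [sq_nonneg (|ft v - P v| - (4 * ε + L * w))]
      _ = _ := by rw [sq_abs]
  obtain ⟨J, hJ⟩ : ∃ J : ℝ, J = ∫ v in Ioc (Real.log p) (Real.log p + w), (ft v - P v) ^ 2 := ⟨_, rfl⟩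
  rw [← hJ] at key ⊢
  have h7 : Real.log p / p * X ^ 2 = Real.log p / (ε * √p) * (w * X ^ 2) := by
    rw [← hwp]
    field_simp
  have h8 : 0 ≤ Real.log (p:ℝ) / (ε * √p) := by positivity
  rw [h7]
  refine (mul_le_mul_of_nonneg_left key h8).trans ?_
  rw [mul_add]
  refine add_le_add (le_of_eq (by ring)) ?_
  have h9 : Real.log p / (ε * √p) * (w * (2 * (4 * ε + L * w) ^ 2)) =
      Real.log p / p * (2 * (4 * ε + L * w) ^ 2) := by
    rw [← hwp]
    field_simp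
  rw [h9]
  have h10 : 2 * (4 * ε + L * w) ^ 2 ≤ 64 * ε ^ 2 + 4 * L ^ 2 * w ^ 2 := by
    nlinarith [sq_nonneg (4 * ε - L * w)]
  refine (mul_le_mul_of_nonneg_left h10 (w_nonneg p)).trans (le_of_eq ?_)
  rw [hw2]
  field_simp

lemma swap {D : ℝ → ℝ} (hD : LB D) {ε : ℝ} (h0 : 0 < ε) (h1 : ε ≤ 1) {x : ℝ} (hx : 1 < x) :
    ∑ p ∈ (Finset.Icc 1 ⌊x⌋₊).filter Nat.Prime,
      (2 * Real.log p / (ε * √p)) * (∫ v in Ioc (Real.log p) (Real.log p + ε / √p), D v ^ 2) =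
     ∫ v in Ioc 0 (Real.log x + 1), HH ε ⌊x⌋₊ v * D v ^ 2 := by
  have hl : 0 < Real.log x := Real.log_pos hx
  have hI := sqI hD le_rfl (by linarith : 0 ≤ Real.log x + 1)
  unfold HH
  simp only [Finset.sum_mul]
  rw [integral_finset_sum]
  · refine Finset.sum_congr rfl fun p hp => ?_
    rw [Finset.mem_filter, Finset.mem_Icc] at hp
    have hp1 : (1:ℝ) ≤ p := by exact_mod_cast hp.1.1
    have hp0 : (0:ℝ) < p := by linarith
    have hs1 : 1 ≤ √(p:ℝ) := Real.one_le_sqrt.2 hp1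
    have hlp0 : 0 ≤ Real.log (p:ℝ) := Real.log_nonneg hp1
    have hpx : (p:ℝ) ≤ x := (Nat.le_floor_iff (by linarith)).1 hp.1.2
    have hlx : Real.log (p:ℝ) ≤ Real.log x := Real.log_le_log hp0 hpx
    have hw1 : ε / √(p:ℝ) ≤ 1 := by
      rw [div_le_one (by linarith)]
      linarith
    have hsub : Ioc (Real.log (p:ℝ)) (Real.log p + ε / √p) ⊆ Ioc 0 (Real.log x + 1) :=
      Ioc_subset_Ioc hlp0 (by linarith)
    have e1 : ∀ v, (2 * Real.log p / (ε * √p)) * (Ioc (Real.log (p:ℝ)) (Real.log p + ε / √p)).indicator 1 v * D v ^ 2 =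
        (2 * Real.log p / (ε * √p)) * (Ioc (Real.log (p:ℝ)) (Real.log p + ε / √p)).indicator (fun v => D v ^ 2) v := by
      intro v
      by_cases hv : v ∈ Ioc (Real.log (p:ℝ)) (Real.log p + ε / √p)
      · rw [indicator_of_mem hv, indicator_of_mem hv, Pi.one_apply, mul_one]
      · rw [indicator_of_notMem hv, indicator_of_notMem hv, mul_zero, zero_mul]
    simp only [e1]
    rw [integral_const_mul, setIntegral_indicator measurableSet_Ioc, inter_eq_self_of_subset_right hsub]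
  · intro p _
    have e1 : (fun v => (2 * Real.log p / (ε * √p)) * (Ioc (Real.log (p:ℝ)) (Real.log p + ε / √p)).indicator 1 v * D v ^ 2) =
        fun v => (2 * Real.log p / (ε * √p)) * (Ioc (Real.log (p:ℝ)) (Real.log p + ε / √p)).indicator (fun v => D v ^ 2) v := by
      funext v
      by_cases hv : v ∈ Ioc (Real.log (p:ℝ)) (Real.log p + ε / √p)
      · rw [indicator_of_mem hv, indicator_of_mem hv, Pi.one_apply, mul_one]
      · rw [indicator_of_notMem hv, indicator_of_notMem hv, mul_zero, zero_mul]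
    rw [e1]
    exact (hI.indicator measurableSet_Ioc).const_mul _

lemma HH_meas (ε : ℝ) (N : ℕ) : Measurable (HH ε N) := by
  unfold HH
  refine Finset.measurable_sum _ fun p _ => ?_
  exact (measurable_one.indicator measurableSet_Ioc).const_mul _

lemma HH_nonneg {ε : ℝ} (h0 : 0 < ε) (N : ℕ) (v : ℝ) : 0 ≤ HH ε N v := by
  unfold HH
  refine Finset.sum_nonneg fun p _ => mul_nonneg ?_ (indicator_nonneg (fun _ _ => zero_le_one) _)
  have := Real.log_natCast_nonneg p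
  positivity

lemma upper {D : ℝ → ℝ} (hD : LB D) {ε C1 v0 : ℝ} (h0 : 0 < ε) (hC1 : 0 < C1) (hv0 : 0 ≤ v0)
    (hb : ∀ v : ℝ, v0 ≤ v → ∀ N : ℕ, HH ε N v ≤ C1) {V : ℝ} (hV : 0 ≤ V) (N : ℕ) :
    ∫ v in Ioc 0 V, HH ε N v * D v ^ 2 ≤ C1 * (∫ v in Ioc 0 V, D v ^ 2) +
      Real.exp v0 * (2 * v0 / ε) * ∫ v in Ioc 0 v0, D v ^ 2 := by
  obtain ⟨K1, hK1⟩ : ∃ K1 : ℝ, K1 = Real.exp v0 * (2 * v0 / ε) := ⟨_, rfl⟩
  have hK10 : 0 ≤ K1 := by rw [hK1]; positivity
  rw [← hK1]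
  have hI := sqI hD le_rfl hV
  have hI0 := sqI hD le_rfl hv0
  have hg : IntegrableOn (fun v => C1 * D v ^ 2 + K1 * (Iic v0).indicator (fun v => D v ^ 2) v) (Ioc 0 V) :=
    (hI.const_mul _).add ((hI.indicator measurableSet_Iic).const_mul _)
  have hpt : ∀ v, HH ε N v * D v ^ 2 ≤ C1 * D v ^ 2 + K1 * (Iic v0).indicator (fun v => D v ^ 2) v := by
    intro v
    have hD2 : 0 ≤ D v ^ 2 := sq_nonneg _
    rcases le_total v v0 with h | h
    · rw [indicator_of_mem (mem_Iic.2 h)]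
      have h2 := HH_crude h0 N h hv0
      rw [← hK1] at h2
      nlinarith
    · have h2 := hb v h N
      have h3 : 0 ≤ (Iic v0).indicator (fun v => D v ^ 2) v := indicator_nonneg (fun _ _ => sq_nonneg _) _
      nlinarith [mul_nonneg hK10 h3]
  have h2 : ∫ v in Ioc 0 V, HH ε N v * D v ^ 2 ≤
      ∫ v in Ioc 0 V, (C1 * D v ^ 2 + K1 * (Iic v0).indicator (fun v => D v ^ 2) v) := by
    refine integral_mono_of_nonneg (Eventually.of_forall fun v => mul_nonneg (HH_nonneg h0 N v) (sq_nonneg _))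
      hg (Eventually.of_forall hpt)
  refine h2.trans ?_
  rw [integral_add (hI.const_mul _) ((hI.indicator measurableSet_Iic).const_mul _), integral_const_mul,
    integral_const_mul]
  refine add_le_add le_rfl (mul_le_mul_of_nonneg_left ?_ hK10)
  rw [setIntegral_indicator measurableSet_Iic]
  refine setIntegral_mono_set hI0 (Eventually.of_forall fun v => sq_nonneg _) ?_
  refine HasSubset.Subset.eventuallyLE ?_
  rintro v ⟨hv1, hv2⟩
  exact ⟨hv1.1, hv2⟩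

lemma log_sq_sum : ∃ S : ℝ, 0 ≤ S ∧ ∀ N : ℕ, ∑ p ∈ (Finset.Icc 1 N).filter Nat.Prime, Real.log (p:ℝ) / (p:ℝ) ^ 2 ≤ S := by
  have hs : Summable fun n : ℕ => 2 * (1 / (n:ℝ) ^ (3 / 2 : ℝ)) :=
    (Real.summable_one_div_nat_rpow.2 (by norm_num)).mul_left 2
  have hnn : ∀ n : ℕ, 0 ≤ 2 * (1 / (n:ℝ) ^ (3 / 2 : ℝ)) := fun n => by positivity
  refine ⟨∑' n : ℕ, 2 * (1 / (n:ℝ) ^ (3 / 2 : ℝ)), tsum_nonneg hnn, fun N => ?_⟩
  refine le_trans (Finset.sum_le_sum fun p hp => ?_) (hs.sum_le_tsum _ fun n _ => hnn n)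
  rw [Finset.mem_filter, Finset.mem_Icc] at hp
  have hp1 : (1:ℝ) ≤ p := by exact_mod_cast hp.1.1
  have hp0 : (0:ℝ) < p := by linarith
  have h1 : Real.log (p:ℝ) ≤ 2 * √p := by
    have h2 : Real.log (√(p:ℝ)) ≤ √p - 1 := Real.log_le_sub_one_of_pos (Real.sqrt_pos.2 hp0)
    rw [Real.log_sqrt hp0.le] at h2
    linarith
  have h3 : √(p:ℝ) * (p:ℝ) ^ (3 / 2 : ℝ) = (p:ℝ) ^ 2 := by
    rw [Real.sqrt_eq_rpow, ← Real.rpow_add hp0, ← Real.rpow_natCast]
    congr 1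
    norm_num
  have h4 : 0 < (p:ℝ) ^ (3 / 2 : ℝ) := Real.rpow_pos_of_pos hp0 _
  rw [div_le_iff₀ (by positivity), ← h3]
  calc Real.log (p:ℝ) ≤ 2 * √p := h1
    _ = _ := by field_simp

/-- the transfer -/
theorem transfer {C : ℝ} (hC : 0 < C) (h : PNTb C) : ∃ C2 : ℝ, 0 < C2 ∧ ∀ (K : Finset ℝ) (a : ℝ → ℂ) (η : ℝ),
    0 < η → η ≤ 1 → (∀ᶠ V : ℝ in atTop, mn (fun v => (ft v - rt K a v) ^ 2) V ≤ η) →
    ∀ᶠ x : ℝ in atTop, PG (fun p => (gp p - rt K a (Real.log p)) ^ 2) x ≤ C2 * η := by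
  obtain ⟨C1, hC1, hHH⟩ := HH_bound
  obtain ⟨S, hS0, hS⟩ := log_sq_sum
  refine ⟨2 * C1 + 130, by positivity, fun K a η hη0 hη1 hη => ?_⟩
  obtain ⟨L, hL0, hL⟩ := rt_lip K a
  obtain ⟨ε, hε⟩ : ∃ ε : ℝ, ε = √η := ⟨_, rfl⟩
  have hε0 : 0 < ε := by rw [hε]; exact Real.sqrt_pos.2 hη0
  have hε1 : ε ≤ 1 := by rw [hε]; exact Real.sqrt_le_one.2 hη1
  have hε2 : ε ^ 2 = η := by rw [hε]; exact Real.sq_sqrt hη0.le
  obtain ⟨v0, hv0, hb⟩ := hHH ε hε0 hε1
  have hD : LB (fun v => ft v - rt K a v) := ft_LB.sub (LB.of_cont (rt_cont K a))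
  obtain ⟨K2, hK2⟩ : ∃ K2 : ℝ, K2 = Real.exp v0 * (2 * v0 / ε) * (∫ v in Ioc 0 v0, (ft v - rt K a v) ^ 2) +
    4 * L ^ 2 * η * S := ⟨_, rfl⟩
  have hlim : Tendsto (fun x : ℝ => K2 / Real.log x) atTop (𝓝 0) :=
    tendsto_const_nhds.div_atTop Real.tendsto_log_atTop
  have hη' : ∀ᶠ x : ℝ in atTop, mn (fun v => (ft v - rt K a v) ^ 2) (Real.log x + 1) ≤ η :=
    (tendsto_atTop_add_const_right _ 1 Real.tendsto_log_atTop).eventually hη
  filter_upwards [hη', Metric.tendsto_nhds.1 (PR_one hC h) 1 one_pos, Metric.tendsto_nhds.1 hlim η hη0,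
    Real.tendsto_log_atTop.eventually_ge_atTop 1, eventually_gt_atTop (1:ℝ)] with x h1 h2 h3 h4 hx
  have hl : 0 < Real.log x := by linarith
  rw [Real.dist_eq] at h2 h3
  rw [sub_zero] at h3
  have h5 : ∑ p ∈ (Finset.Icc 1 ⌊x⌋₊).filter Nat.Prime, Real.log p / p * (gp p - rt K a (Real.log p)) ^ 2 ≤
      C1 * (η * (Real.log x + 1)) + (K2 + 64 * η * (PR (fun _ => 1) x * Real.log x)) := by
    have h6 : ∀ p ∈ (Finset.Icc 1 ⌊x⌋₊).filter Nat.Prime, Real.log p / p * (gp p - rt K a (Real.log p)) ^ 2 ≤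
        (2 * Real.log p / (ε * √p)) * (∫ v in Ioc (Real.log p) (Real.log p + ε / √p), (ft v - rt K a v) ^ 2) +
        (64 * ε ^ 2 * (Real.log p / p) + 4 * L ^ 2 * ε ^ 2 * (Real.log p / p ^ 2)) := fun p hp =>
      prime_bound (rt_cont K a) hL0 hL hε0 hε1 (Finset.mem_filter.1 hp).2
    refine (Finset.sum_le_sum h6).trans ?_
    rw [Finset.sum_add_distrib, Finset.sum_add_distrib, swap hD hε0 hε1 hx, ← Finset.mul_sum, ← Finset.mul_sum,
      hε2]
    have h7 := upper hD hε0 hC1 hv0 hb (by linarith : 0 ≤ Real.log x + 1) ⌊x⌋₊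
    have h8 : ∫ v in Ioc 0 (Real.log x + 1), (ft v - rt K a v) ^ 2 ≤ η * (Real.log x + 1) := by
      unfold mn at h1
      rw [div_le_iff₀ (by linarith), intervalIntegral.integral_of_le (by linarith)] at h1
      exact h1
    have h9 : ∑ p ∈ (Finset.Icc 1 ⌊x⌋₊).filter Nat.Prime, Real.log (p:ℝ) / p = PR (fun _ => 1) x * Real.log x := by
      unfold PR
      rw [div_mul_cancel₀ _ hl.ne']
      simp only [mul_one]
    rw [h9, hK2]
    have h10 : C1 * (∫ v in Ioc 0 (Real.log x + 1), (ft v - rt K a v) ^ 2) ≤ C1 * (η * (Real.log x + 1)) :=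
      mul_le_mul_of_nonneg_left h8 hC1.le
    have h11 : 4 * L ^ 2 * η * ∑ p ∈ (Finset.Icc 1 ⌊x⌋₊).filter Nat.Prime, Real.log (p:ℝ) / (p:ℝ) ^ 2 ≤
        4 * L ^ 2 * η * S := mul_le_mul_of_nonneg_left (hS _) (by positivity)
    linarith
  unfold PG
  rw [div_le_iff₀ hl]
  refine h5.trans ?_
  have h12 : K2 ≤ η * Real.log x := by
    have h13 := (abs_lt.1 h3).2
    rw [div_lt_iff₀ hl] at h13
    exact h13.le
  have h14 : PR (fun _ => 1) x ≤ 2 := by
    have := (abs_lt.1 h2).2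
    linarith
  have h15 : 64 * η * (PR (fun _ => 1) x * Real.log x) ≤ 64 * η * (2 * Real.log x) := by
    refine mul_le_mul_of_nonneg_left (mul_le_mul_of_nonneg_right h14 hl.le) (by positivity)
  have h16 : C1 * (η * (Real.log x + 1)) ≤ C1 * (η * (2 * Real.log x)) := by
    refine mul_le_mul_of_nonneg_left (mul_le_mul_of_nonneg_left (by linarith) hη0.le) hC1.le
  have h17 : 0 ≤ η * Real.log x := by positivity
  nlinarith

end

end Pool.Agent.E8helper68.WP
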