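import Pool.Agent.E8helper68.WP.WP5
import Pool.Agent.E8helper68.WP.WP8

/-! The limit law at the primes, and the final statement. -/

set_option autoImplicit false

open MeasureTheory Filter Topology Set
open Pool.Agent.H295R2 (Mx JJ JW)
open Pool.Agent.TH223.AP (mn rt rt_cont rt_mem rt_bound ft ft_LB LB cl cl_cont cl_abs cl_abs' cl_eq abs_mn_sub_le
  mn_const_mul mn_const mn_add ft_B20 B2.real B20.b2 law_facts SS SS_pos WM WM_iff_ZC IsLaw charges half_min_cont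
  half_min_bd)
open Pool.Agent.W120.WM (ZC NT msq)

namespace Pool.Agent.E8helper68.WP

noncomputable section

lemma cl_lip (R s t : ℝ) : |cl R s - cl R t| ≤ |s - t| := by
  unfold cl
  rw [max_comm (-R), max_comm (-R)]
  refine (abs_max_sub_max_le_abs _ _ _).trans ?_
  refine (abs_min_sub_min_le_max _ _ _ _).trans ?_
  rw [sub_self, abs_zero]
  exact max_le le_rfl (abs_nonneg _)

/-- approximate Lipschitz continuity of truncated continuous functions -/
lemma quad_cont {φ : ℝ → ℝ} (hφ : Continuous φ) {n : ℝ} (hn : 0 ≤ n) {ε : ℝ} (hε : 0 < ε) :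
    ∃ K2 : ℝ, 0 ≤ K2 ∧ ∀ s t : ℝ, |φ (cl n s) - φ (cl n t)| ≤ ε + K2 * (s - t) ^ 2 := by
  have hu := isCompact_Icc.uniformContinuousOn_of_continuous (hφ.continuousOn (s := Icc (-n) n))
  rw [Metric.uniformContinuousOn_iff] at hu
  obtain ⟨δ, hδ, h⟩ := hu ε hε
  obtain ⟨D, hD⟩ := isCompact_Icc.exists_bound_of_continuousOn (hφ.continuousOn (s := Icc (-n) n))
  have hD0 : 0 ≤ D := (norm_nonneg _).trans (hD 0 ⟨by linarith, hn⟩)
  refine ⟨2 * D / δ ^ 2, by positivity, fun s t => ?_⟩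
  have hs : cl n s ∈ Icc (-n) n := abs_le.1 (cl_abs hn s)
  have ht : cl n t ∈ Icc (-n) n := abs_le.1 (cl_abs hn t)
  rcases lt_or_ge |s - t| δ with h1 | h1
  · have h2 := h _ hs _ ht (by
      rw [Real.dist_eq]
      exact (cl_lip n s t).trans_lt h1)
    rw [Real.dist_eq] at h2
    have h3 : 0 ≤ 2 * D / δ ^ 2 * (s - t) ^ 2 := by positivity
    linarith
  · have h2 : |φ (cl n s) - φ (cl n t)| ≤ 2 * D := by
      have h3 := hD _ hs
      have h4 := hD _ ht
      rw [Real.norm_eq_abs] at h3 h4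
      exact (abs_sub _ _).trans (by linarith)
    have h3 : δ ^ 2 ≤ (s - t) ^ 2 := by
      rw [← sq_abs (s - t)]
      exact pow_le_pow_left₀ hδ.le h1 2
    have h4 : 2 * D ≤ 2 * D / δ ^ 2 * (s - t) ^ 2 := by
      rw [div_mul_eq_mul_div, le_div_iff₀ (by positivity)]
      nlinarith
    linarith

lemma trunc_bound {φ : ℝ → ℝ} {C : ℝ} (hC0 : 0 ≤ C) (hC : ∀ t, |φ t| ≤ C * (1 + t ^ 2)) {B n : ℝ}
    (hn3 : 2 * B ≤ n) (hn4 : 1 ≤ n) {s t : ℝ} (ht : |t| ≤ B) :
    |φ s - φ (cl n s)| ≤ 16 * C * (s - t) ^ 2 := by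
  have hn0 : 0 ≤ n := by linarith
  rcases le_or_gt |s| n with h8 | h8
  · rw [cl_eq h8, sub_self, abs_zero]
    positivity
  · have h9 := hC s
    have h10 := hC (cl n s)
    have h11 : cl n s ^ 2 ≤ s ^ 2 := by
      rw [sq_le_sq]
      exact cl_abs' hn0 _
    have h13 : |s| ≤ 2 * |s - t| := by
      have := abs_sub_abs_le_abs_sub s t
      linarith
    have h14 : s ^ 2 ≤ 4 * (s - t) ^ 2 := by
      rw [← sq_abs s, ← sq_abs (s - t)]
      nlinarith [abs_nonneg s, abs_nonneg (s - t)]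
    have h15 : 1 ≤ s ^ 2 := by
      rw [← sq_abs s]
      nlinarith
    have h16 : |φ s - φ (cl n s)| ≤ C * (1 + s ^ 2) + C * (1 + cl n s ^ 2) :=
      (abs_sub _ _).trans (add_le_add h9 h10)
    refine h16.trans ?_
    have h17 : C * (1 + s ^ 2) + C * (1 + cl n s ^ 2) ≤ C * (4 * s ^ 2) := by
      rw [← mul_add]
      refine mul_le_mul_of_nonneg_left ?_ hC0
      linarith
    refine h17.trans ?_
    have h18 : C * (4 * s ^ 2) ≤ C * (4 * (4 * (s - t) ^ 2)) := by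
      refine mul_le_mul_of_nonneg_left ?_ hC0
      linarith
    linarith

/-- bounded test functions -/
lemma PG_bdd (hZ : ZC) {C : ℝ} (hC : 0 < C) (h : PNTb C) {ψ : ℝ → ℝ} (hψ : Continuous ψ)
    (hq : ∀ ε : ℝ, 0 < ε → ∃ K2 : ℝ, 0 ≤ K2 ∧ ∀ s t : ℝ, |ψ s - ψ t| ≤ ε + K2 * (s - t) ^ 2) :
    Tendsto (fun x : ℝ => PG (fun p => ψ (gp p)) x - mn (fun v => ψ (ft v)) (Real.log x)) atTop (𝓝 0) := by
  obtain ⟨C2, hC2, htr⟩ := transfer hC h
  rw [Metric.tendsto_nhds]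
  intro ε hε
  obtain ⟨K2, hK2, hK⟩ := hq (ε / 16) (by positivity)
  obtain ⟨η, hη⟩ : ∃ η : ℝ, η = min 1 (ε / (8 * ((K2 + 1) * (C2 + 1)))) := ⟨_, rfl⟩
  have hη0 : 0 < η := by rw [hη]; positivity
  have hη1 : η ≤ 1 := by rw [hη]; exact min_le_left _ _
  have hηb : η * ((K2 + 1) * (C2 + 1)) ≤ ε / 8 := by
    have h1 : η ≤ ε / (8 * ((K2 + 1) * (C2 + 1))) := by rw [hη]; exact min_le_right _ _
    rw [le_div_iff₀ (by positivity)] at h1
    linarith
  have hb1 : K2 * (C2 * η) ≤ ε / 8 := by nlinarith [mul_nonneg hK2 hη0.le, mul_pos hC2 hη0]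
  have hb2 : K2 * η ≤ ε / 8 := by nlinarith [mul_nonneg hK2 hη0.le, mul_pos hC2 hη0, mul_nonneg (mul_nonneg hK2 hη0.le) hC2.le]
  obtain ⟨K, a, hap⟩ := (ft_B20 hZ).b2.real ft_LB hη0
  have h1 := htr K a η hη0 hη1 hap
  have h2 := Real.tendsto_log_atTop.eventually hap
  have h3 := PR_comp hC h (rt_mem K a) (rt_cont K a) (rt_bound K a) hψ
  filter_upwards [h1, h2, Metric.tendsto_nhds.1 h3 (ε / 16) (by positivity),
    Metric.tendsto_nhds.1 (PR_one hC h) 1 one_pos, eventually_gt_atTop (1:ℝ)] with x g1 g2 g3 g4 hx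
  rw [Real.dist_eq, sub_zero] at g3 ⊢
  rw [Real.dist_eq] at g4
  have hl : 0 < Real.log x := Real.log_pos hx
  have g5 : PG (fun _ => 1) x ≤ 2 := by
    have := (abs_lt.1 g4).2
    rw [PR_eq_PG] at this
    linarith
  have g6 : |PG (fun p => ψ (gp p)) x - PR (fun v => ψ (rt K a v)) x| ≤ ε / 8 + ε / 8 := by
    rw [PR_eq_PG]
    refine (PG_abs_le (H := fun p => ε / 16 * 1 + K2 * (gp p - rt K a (Real.log p)) ^ 2) hx fun p _ => by
      rw [mul_one]
      exact hK _ _).trans ?_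
    rw [PG_add, PG_const_mul, PG_const_mul]
    have g7 : ε / 16 * PG (fun _ => 1) x ≤ ε / 16 * 2 := mul_le_mul_of_nonneg_left g5 (by positivity)
    have g8 := mul_le_mul_of_nonneg_left g1 hK2
    linarith
  have g7 : |mn (fun v => ψ (ft v)) (Real.log x) - mn (fun v => ψ (rt K a v)) (Real.log x)| ≤ ε / 16 + ε / 8 := by
    have hsub := ft_LB.sub (LB.of_cont (rt_cont K a))
    have hk : LB (fun v => K2 * (ft v - rt K a v) ^ 2 + ε / 16) :=
      (hsub.sq.const_mul _).add (LB.of_cont continuous_const)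
    refine (abs_mn_sub_le (g := fun v => ψ (ft v)) (h := fun v => ψ (rt K a v)) hl
      ((ft_LB.comp hψ).ii hl.le) (((LB.of_cont (rt_cont K a)).comp hψ).ii hl.le) (hk.ii hl.le)
      (fun v _ => by
        have := hK (ft v) (rt K a v)
        linarith)).trans ?_
    rw [mn_add ((hsub.sq.const_mul _).ii hl.le) (continuous_const.intervalIntegrable _ _), mn_const_mul,
      mn_const _ hl]
    have g8 := mul_le_mul_of_nonneg_left g2 hK2
    linarith
  rw [abs_lt] at g3 ⊢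
  rw [abs_le] at g6 g7
  constructor <;> linarith [g3.1, g3.2, g6.1, g6.2, g7.1, g7.2]

/-- test functions of quadratic growth -/
theorem PG_quad (hZ : ZC) {C : ℝ} (hC : 0 < C) (h : PNTb C) {φ : ℝ → ℝ} (hφ : Continuous φ) {C' : ℝ}
    (hC' : ∀ t, |φ t| ≤ C' * (1 + t ^ 2)) :
    Tendsto (fun x : ℝ => PG (fun p => φ (gp p)) x - mn (fun v => φ (ft v)) (Real.log x)) atTop (𝓝 0) := by
  have hC0 : 0 ≤ C' := by
    have := (abs_nonneg (φ 0)).trans (hC' 0)
    simpa using this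
  obtain ⟨C2, hC2, htr⟩ := transfer hC h
  rw [Metric.tendsto_nhds]
  intro ε hε
  obtain ⟨η, hη⟩ : ∃ η : ℝ, η = min 1 (ε / (4 * ((16 * C' + 1) * (C2 + 1)))) := ⟨_, rfl⟩
  have hη0 : 0 < η := by rw [hη]; positivity
  have hη1 : η ≤ 1 := by rw [hη]; exact min_le_left _ _
  have hηb : η * ((16 * C' + 1) * (C2 + 1)) ≤ ε / 4 := by
    have h1 : η ≤ ε / (4 * ((16 * C' + 1) * (C2 + 1))) := by rw [hη]; exact min_le_right _ _
    rw [le_div_iff₀ (by positivity)] at h1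
    linarith
  have hK0 : 0 ≤ 16 * C' := by positivity
  have hb1 : 16 * C' * (C2 * η) ≤ ε / 4 := by nlinarith [mul_nonneg hK0 hη0.le, mul_pos hC2 hη0]
  have hb2 : 16 * C' * η ≤ ε / 4 := by
    nlinarith [mul_nonneg hK0 hη0.le, mul_pos hC2 hη0, mul_nonneg (mul_nonneg hK0 hη0.le) hC2.le]
  obtain ⟨K, a, hap⟩ := (ft_B20 hZ).b2.real ft_LB hη0
  have h1 := htr K a η hη0 hη1 hap
  have h2 := Real.tendsto_log_atTop.eventually hap
  obtain ⟨B, hB⟩ : ∃ B : ℝ, B = ∑ l ∈ K, ‖a l‖ := ⟨_, rfl⟩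
  obtain ⟨n, hn⟩ : ∃ n : ℝ, n = max (2 * B) 1 := ⟨_, rfl⟩
  have hn1 : 1 ≤ n := by rw [hn]; exact le_max_right _ _
  have hn2 : 2 * B ≤ n := by rw [hn]; exact le_max_left _ _
  have hn0 : 0 ≤ n := by linarith
  have h3 := PG_bdd hZ hC h (ψ := fun t => φ (cl n t)) (hφ.comp (cl_cont n)) (fun e he => quad_cont hφ hn0 he)
  filter_upwards [h1, h2, Metric.tendsto_nhds.1 h3 (ε / 4) (by positivity), eventually_gt_atTop (1:ℝ)]
    with x g1 g2 g3 hx
  have hl : 0 < Real.log x := Real.log_pos hx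
  rw [Real.dist_eq, sub_zero] at g3 ⊢
  have g4 : |PG (fun p => φ (gp p)) x - PG (fun p => φ (cl n (gp p))) x| ≤ ε / 4 := by
    refine (PG_abs_le (H := fun p => 16 * C' * (gp p - rt K a (Real.log p)) ^ 2) hx fun p _ =>
      trunc_bound hC0 hC' hn2 hn1 (by rw [hB]; exact rt_bound K a _)).trans ?_
    rw [PG_const_mul]
    exact (mul_le_mul_of_nonneg_left g1 hK0).trans hb1
  have g5 : |mn (fun v => φ (ft v)) (Real.log x) - mn (fun v => φ (cl n (ft v))) (Real.log x)| ≤ ε / 4 := by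
    have hsub := ft_LB.sub (LB.of_cont (rt_cont K a))
    refine (abs_mn_sub_le (g := fun v => φ (ft v)) (h := fun v => φ (cl n (ft v))) hl
      ((ft_LB.comp hφ).ii hl.le) ((ft_LB.comp (hφ.comp (cl_cont n))).ii hl.le) ((hsub.sq.const_mul _).ii hl.le)
      (fun v _ => trunc_bound hC0 hC' hn2 hn1 (by rw [hB]; exact rt_bound K a v))).trans ?_
    rw [mn_const_mul]
    exact (mul_le_mul_of_nonneg_left g2 hK0).trans hb2
  rw [abs_lt] at g3 ⊢
  rw [abs_le] at g4 g5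
  constructor <;> linarith [g3.1, g3.2, g4.1, g4.2, g5.1, g5.2]

lemma PNT_of_ZC (hZ : ZC) : ∃ C : ℝ, 0 < C ∧ PNTb C :=
  pnt_of_free (free_of (fun ρ hρ => (hZ.1 ρ hρ).1.le) (by norm_num))

/-- the mean square -/
lemma PG_sq (x : ℝ) : PG (fun p => gp p ^ 2) x = PP x / Real.log x := by
  unfold PG PP
  congr 1
  refine Finset.sum_congr rfl fun p hp => ?_
  rw [Finset.mem_filter, Finset.mem_Icc] at hp
  have hp0 : (0:ℝ) < p := by exact_mod_cast hp.1.1
  show Real.log p / p * (Mx p / √(p:ℝ)) ^ 2 = Real.log p * (Mx p / p) ^ 2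
  rw [div_pow, div_pow, Real.sq_sqrt hp0.le]
  field_simp

lemma sq_bd (t : ℝ) : |t ^ 2| ≤ 1 * (1 + t ^ 2) := by
  rw [one_mul, abs_of_nonneg (sq_nonneg t)]
  linarith

/-- the law at the primes -/
def IsPLaw (μ : ProbabilityMeasure ℝ) : Prop := ∀ φ : ℝ → ℝ, Continuous φ →
  (∃ C : ℝ, ∀ t, |φ t| ≤ C * (1 + t ^ 2)) → Integrable φ (μ : Measure ℝ) ∧
    Tendsto (PG fun p => φ (gp p)) atTop (𝓝 (∫ t, φ t ∂(μ : Measure ℝ)))

theorem law_PLaw (hZ : ZC) {μ : ProbabilityMeasure ℝ} (hμ : IsLaw μ) : IsPLaw μ := by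
  obtain ⟨C, hC, h⟩ := PNT_of_ZC hZ
  rintro φ hφ ⟨C', hC'⟩
  obtain ⟨h1, h2⟩ := hμ φ hφ ⟨C', hC'⟩
  refine ⟨h1, ?_⟩
  have h3 := (PG_quad hZ hC h hφ hC').add (h2.comp Real.tendsto_log_atTop)
  simp only [Function.comp, sub_add_cancel, zero_add] at h3
  exact h3

theorem PLaw_law (hZ : ZC) {μ : ProbabilityMeasure ℝ} (hμ : IsPLaw μ) : IsLaw μ := by
  obtain ⟨C, hC, h⟩ := PNT_of_ZC hZ
  rintro φ hφ ⟨C', hC'⟩
  obtain ⟨h1, h2⟩ := hμ φ hφ ⟨C', hC'⟩
  refine ⟨h1, ?_⟩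
  have h3 := (h2.sub (PG_quad hZ hC h hφ hC')).comp Real.tendsto_exp_atTop
  rw [sub_zero] at h3
  refine h3.congr fun V => ?_
  simp only [Function.comp, sub_sub_cancel, Real.log_exp]

theorem lim_PP (hZ : ZC) : Tendsto (fun x : ℝ => PP x / Real.log x) atTop (𝓝 SS) := by
  obtain ⟨μ, h1, -, h3⟩ := law_facts hZ
  have h2 := (law_PLaw hZ h1 (fun t => t ^ 2) (by fun_prop) ⟨1, sq_bd⟩).2
  rw [h3] at h2
  exact h2.congr PG_sq

lemma le_of_lim {S : ℝ} (h : Tendsto (fun x : ℝ => PP x / Real.log x) atTop (𝓝 S)) :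
    ∃ C : ℝ, ∀ x : ℝ, 2 ≤ x → PP x ≤ C * Real.log x := by
  obtain ⟨X, hX⟩ := eventually_atTop.1 (h.eventually (gt_mem_nhds (lt_add_one S)))
  obtain ⟨Y, hY⟩ : ∃ Y : ℝ, Y = max X 2 := ⟨_, rfl⟩
  have hY2 : 2 ≤ Y := by rw [hY]; exact le_max_right _ _
  have hYX : X ≤ Y := by rw [hY]; exact le_max_left _ _
  have hl2 : 0 < Real.log 2 := Real.log_pos (by norm_num)
  refine ⟨max (S + 1) (PP Y / Real.log 2), fun x hx => ?_⟩
  have hlx : Real.log 2 ≤ Real.log x := Real.log_le_log (by norm_num) hx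
  rcases le_total Y x with h1 | h1
  · have h2 := hX x (hYX.trans h1)
    rw [div_lt_iff₀ (by linarith)] at h2
    exact h2.le.trans (mul_le_mul_of_nonneg_right (le_max_left _ _) (by linarith))
  · calc PP x ≤ PP Y := PP_mono h1
      _ = PP Y / Real.log 2 * Real.log 2 := by rw [div_mul_cancel₀ _ hl2.ne']
      _ ≤ PP Y / Real.log 2 * Real.log x := mul_le_mul_of_nonneg_left hlx (div_nonneg (PP_nonneg _) hl2.le)
      _ ≤ _ := mul_le_mul_of_nonneg_right (le_max_right _ _) (by linarith)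

theorem ZC_of_PLaw {μ : ProbabilityMeasure ℝ} (hμ : IsPLaw μ) : ZC := by
  have h2 := (hμ (fun t => t ^ 2) (by fun_prop) ⟨1, sq_bd⟩).2
  obtain ⟨C, hC⟩ := le_of_lim (h2.congr PG_sq)
  refine freq_ZC (C := C) (Eventually.frequently ?_)
  filter_upwards [eventually_ge_atTop (2:ℝ)] with x hx
  exact hC x hx

theorem atTop_of_not (hZ : ¬ ZC) : Tendsto (fun x : ℝ => PP x / Real.log x) atTop atTop := by
  rw [tendsto_atTop]
  intro b
  by_contra hcon
  refine hZ (freq_ZC (C := b) ?_)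
  rw [Filter.not_eventually] at hcon
  refine (hcon.and_eventually (eventually_gt_atTop (1:ℝ))).mono fun x hx => ?_
  obtain ⟨h1, h2⟩ := hx
  rw [not_le, div_lt_iff₀ (Real.log_pos h2)] at h1
  exact h1.le

/-- the sign at the primes -/
theorem dens_primes (hZ : ZC) : ∃ η c : ℝ, 0 < η ∧ 0 < c ∧ ∀ᶠ x : ℝ in atTop,
    c * Real.log x ≤ ∑ p ∈ (Finset.Icc 1 ⌊x⌋₊).filter (fun p : ℕ => p.Prime ∧ η * √(p:ℝ) < Mx p),
      Real.log p / p ∧
    c * Real.log x ≤ ∑ p ∈ (Finset.Icc 1 ⌊x⌋₊).filter (fun p : ℕ => p.Prime ∧ Mx p < -(η * √(p:ℝ))),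
      Real.log p / p := by
  obtain ⟨μ, hμ, h0, h2'⟩ := law_facts hZ
  have hP := law_PLaw hZ hμ
  have h2 : 0 < ∫ t, t ^ 2 ∂(μ : Measure ℝ) := by rw [h2']; exact SS_pos hZ
  have hi : Integrable (fun t : ℝ => t) (μ : Measure ℝ) :=
    (hμ (fun t => t) continuous_id ⟨1, Pool.Agent.TH223.AP.id_bd⟩).1
  obtain ⟨η1, hη1, hp1⟩ := charges hi h0 h2
  obtain ⟨ν, hν, hνi⟩ : ∃ ν : ProbabilityMeasure ℝ, (∀ φ : ℝ → ℝ, Continuous φ →
      ∫ t, φ t ∂(ν : Measure ℝ) = ∫ t, φ (-t) ∂(μ : Measure ℝ)) ∧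
      Integrable (fun t : ℝ => t) (ν : Measure ℝ) := by
    refine ⟨μ.map (f := fun t : ℝ => -t) measurable_neg.aemeasurable, fun φ hφ => ?_, ?_⟩
    · rw [ProbabilityMeasure.toMeasure_map]
      rw [integral_map measurable_neg.aemeasurable hφ.measurable.aestronglyMeasurable]
    · rw [ProbabilityMeasure.toMeasure_map]
      exact (integrable_map_measure (f := fun t : ℝ => -t) (g := fun t : ℝ => t)
        (Continuous.measurable (by fun_prop)).aestronglyMeasurable measurable_neg.aemeasurable).2 hi.neg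
  obtain ⟨η2, hη2, hp2⟩ := charges (μ := ν) hνi (by
    rw [hν (fun t => t) continuous_id, integral_neg, h0, neg_zero]) (by
    rw [hν _ (by fun_prop)]
    simpa using h2)
  rw [hν _ (half_min_cont η2)] at hp2
  obtain ⟨η, hη⟩ : ∃ η : ℝ, η = min η1 η2 := ⟨_, rfl⟩
  have hη0 : 0 < η := by rw [hη]; positivity
  obtain ⟨c1, hc1⟩ : ∃ c : ℝ, c = ∫ t, min (max (t - η1) 0) 1 ∂(μ : Measure ℝ) := ⟨_, rfl⟩
  obtain ⟨c2, hc2⟩ : ∃ c : ℝ, c = ∫ t, min (max (-t - η2) 0) 1 ∂(μ : Measure ℝ) := ⟨_, rfl⟩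
  rw [← hc1] at hp1
  rw [← hc2] at hp2
  have l1 := (hP _ (half_min_cont η1) ⟨1, half_min_bd η1⟩).2
  have l2 := (hP (fun t => min (max (-t - η2) 0) 1) ((half_min_cont η2).comp continuous_neg)
    ⟨1, fun t => by simpa using half_min_bd η2 (-t)⟩).2
  rw [← hc1] at l1
  rw [← hc2] at l2
  refine ⟨η, min (c1 / 2) (c2 / 2), hη0, by positivity, ?_⟩
  filter_upwards [l1.eventually (lt_mem_nhds (half_lt_self hp1)),
    l2.eventually (lt_mem_nhds (half_lt_self hp2)), eventually_gt_atTop (1:ℝ)] with x h3 h4 hx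
  have hl : 0 < Real.log x := Real.log_pos hx
  constructor
  · refine (mul_le_mul_of_nonneg_right (min_le_left _ _) hl.le).trans ?_
    unfold PG at h3
    rw [lt_div_iff₀ hl] at h3
    refine h3.le.trans ?_
    rw [← Finset.filter_filter, Finset.sum_filter (s := (Finset.Icc 1 ⌊x⌋₊).filter Nat.Prime)]
    refine Finset.sum_le_sum fun p hp => ?_
    rw [Finset.mem_filter, Finset.mem_Icc] at hp
    have hp0 : (0:ℝ) < p := by exact_mod_cast hp.1.1
    have hs : 0 < √(p:ℝ) := Real.sqrt_pos.2 hp0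
    split_ifs with hc
    · exact (mul_le_mul_of_nonneg_left (min_le_right _ _) (w_nonneg p)).trans (by rw [mul_one])
    · have h5 : gp p ≤ η1 := by
        unfold gp
        rw [div_le_iff₀ hs]
        push Not at hc
        refine hc.trans (mul_le_mul_of_nonneg_right ?_ hs.le)
        rw [hη]
        exact min_le_left _ _
      show Real.log p / p * min (max (gp p - η1) 0) 1 ≤ 0
      rw [max_eq_right (by linarith), min_eq_left zero_le_one, mul_zero]
  · refine (mul_le_mul_of_nonneg_right (min_le_right _ _) hl.le).trans ?_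
    unfold PG at h4
    rw [lt_div_iff₀ hl] at h4
    refine h4.le.trans ?_
    rw [← Finset.filter_filter, Finset.sum_filter (s := (Finset.Icc 1 ⌊x⌋₊).filter Nat.Prime)]
    refine Finset.sum_le_sum fun p hp => ?_
    rw [Finset.mem_filter, Finset.mem_Icc] at hp
    have hp0 : (0:ℝ) < p := by exact_mod_cast hp.1.1
    have hs : 0 < √(p:ℝ) := Real.sqrt_pos.2 hp0
    split_ifs with hc
    · exact (mul_le_mul_of_nonneg_left (min_le_right _ _) (w_nonneg p)).trans (by rw [mul_one])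
    · have h5 : - gp p ≤ η2 := by
        unfold gp
        rw [← neg_div, div_le_iff₀ hs]
        push Not at hc
        have h6 : η * √(p:ℝ) ≤ η2 * √p := by
          refine mul_le_mul_of_nonneg_right ?_ hs.le
          rw [hη]
          exact min_le_right _ _
        linarith
      show Real.log p / p * min (max (-gp p - η2) 0) 1 ≤ 0
      rw [max_eq_right (by linarith), min_eq_left zero_le_one, mul_zero]

end

end Pool.Agent.E8helper68.WP
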